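import Mathlib

set_option autoImplicit false

namespace Pool.Agent.H19SP

/-- The parameters of the estimate. -/
structure Params where
  K : ℝ
  r0 : ℝ
  E : ℝ
  β : ℝ
  hK : 1 ≤ K
  hE : 1 ≤ E
  hr0 : 8 * E ≤ r0
  hβ : β = 256 * E / r0 ^ 2
  hβK : 2 * β * K ≤ 1 / 8
  hEK : Real.exp (4 * K / r0) ≤ E

namespace Params

variable (p : Params)

theorem r0_pos : 0 < p.r0 := by
  have := p.hr0
  have := p.hE
  linarith

theorem β_nonneg : 0 ≤ p.β := by
  rw [p.hβ]
  have := p.hE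
  have := p.r0_pos
  positivity

/-- The radius function. -/
noncomputable def ρ (a b : ℝ) : ℝ := 4 / p.r0 * min a b + p.β * (a + b)

theorem ρ_symm (a b : ℝ) : p.ρ a b = p.ρ b a := by
  unfold ρ
  rw [min_comm, add_comm a b]

theorem ρ_zero : p.ρ 0 0 = 0 := by
  simp [ρ]

theorem ρ_add (a b a' b' : ℝ) : p.ρ a b + p.ρ a' b' ≤ p.ρ (a + a') (b + b') := by
  unfold ρ
  have h1 : min a b + min a' b' ≤ min (a + a') (b + b') := by
    apply le_min
    · exact add_le_add (min_le_left _ _) (min_le_left _ _)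
    · exact add_le_add (min_le_right _ _) (min_le_right _ _)
  have h2 : 0 ≤ 4 / p.r0 := by
    have := p.r0_pos
    positivity
  nlinarith [mul_le_mul_of_nonneg_left h1 h2]

/-- The region of weights coming from pieces without a direct edge. -/
def R (a b : ℝ) (y : ℂ) : Prop := ∃ ζ : ℂ, y = Complex.exp ζ ∧ ‖ζ‖ ≤ p.ρ a b

/-- The region of allowed weights. -/
def Allowed (a b : ℝ) (y : ℂ) : Prop := y = 0 ∨ p.R a b y

theorem R.symm {p : Params} {a b : ℝ} {y : ℂ} (h : p.R a b y) : p.R b a y := by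
  obtain ⟨ζ, h1, h2⟩ := h
  exact ⟨ζ, h1, by rwa [p.ρ_symm]⟩

theorem Allowed.symm {p : Params} {a b : ℝ} {y : ℂ} (h : p.Allowed a b y) :
    p.Allowed b a y := by
  rcases h with h | h
  · exact Or.inl h
  · exact Or.inr h.symm

theorem allowed_one : p.Allowed 0 0 1 :=
  Or.inr ⟨0, by simp, by simp [p.ρ_zero]⟩

theorem Allowed.mul {p : Params} {a b a' b' : ℝ} {y y' : ℂ} (h : p.Allowed a b y)
    (h' : p.R a' b' y') : p.Allowed (a + a') (b + b') (y * y') := by
  rcases h with h | ⟨ζ, h1, h2⟩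
  · left
    rw [h, zero_mul]
  · right
    obtain ⟨ζ', h1', h2'⟩ := h'
    refine ⟨ζ + ζ', ?_, ?_⟩
    · rw [h1, h1', Complex.exp_add]
    · calc ‖ζ + ζ'‖ ≤ ‖ζ‖ + ‖ζ'‖ := norm_add_le _ _
        _ ≤ p.ρ a b + p.ρ a' b' := add_le_add h2 h2'
        _ ≤ _ := p.ρ_add _ _ _ _

theorem norm_exp_sub_one_le' (x : ℂ) : ‖Complex.exp x - 1‖ ≤ Real.exp ‖x‖ - 1 := by
  have := Complex.norm_exp_sub_sum_le_exp_norm_sub_sum x 1
  simpa using this

theorem exp_quarter : Real.exp (1 / 4) ≤ 2 := by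
  have h1 := Real.exp_one_lt_d9
  have h2 : Real.exp (1 / 4) ≤ Real.exp (Real.log 2) := by
    apply Real.exp_le_exp.2
    have := Real.log_two_gt_d9
    linarith
  rwa [Real.exp_log (by norm_num)] at h2

/-- Small pieces. -/
theorem R.norm_le_one {p : Params} {a b : ℝ} {y : ℂ} (h : p.R a b y)
    (ha' : a ≤ p.K) (hb' : b ≤ p.K) (hmin : min a b ≤ p.r0 / 32) : ‖y - 1‖ ≤ 1 := by
  obtain ⟨ζ, h1, h2⟩ := h
  have hr := p.r0_pos
  have hβ := p.β_nonneg
  have h3 : p.ρ a b ≤ 1 / 4 := by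
    unfold ρ
    have h4 : 4 / p.r0 * min a b ≤ 4 / p.r0 * (p.r0 / 32) :=
      mul_le_mul_of_nonneg_left hmin (by positivity)
    have h5 : 4 / p.r0 * (p.r0 / 32) = 1 / 8 := by
      field_simp
      norm_num
    have h6 : p.β * (a + b) ≤ p.β * (p.K + p.K) :=
      mul_le_mul_of_nonneg_left (add_le_add ha' hb') hβ
    have h7 := p.hβK
    nlinarith
  rw [h1]
  calc ‖Complex.exp ζ - 1‖ ≤ Real.exp ‖ζ‖ - 1 := norm_exp_sub_one_le' ζ
    _ ≤ Real.exp (1 / 4) - 1 := by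
        have := Real.exp_le_exp.2 (h2.trans h3)
        linarith
    _ ≤ 1 := by
        have := exp_quarter
        linarith

/-- General bound. -/
theorem R.norm_le {p : Params} {a b : ℝ} {y : ℂ} (h : p.R a b y)
    (ha' : a ≤ p.K) (hb' : b ≤ p.K) :
    ‖y - 1‖ ≤ Real.exp (4 * min a b / p.r0) * Real.exp (1 / 8) := by
  obtain ⟨ζ, h1, h2⟩ := h
  have hr := p.r0_pos
  have hβ := p.β_nonneg
  have h3 : p.ρ a b ≤ 4 * min a b / p.r0 + 1 / 8 := by
    unfold ρ
    have h6 : p.β * (a + b) ≤ p.β * (p.K + p.K) :=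
      mul_le_mul_of_nonneg_left (add_le_add ha' hb') hβ
    have h7 := p.hβK
    have h8 : 4 / p.r0 * min a b = 4 * min a b / p.r0 := by ring
    rw [h8]
    nlinarith
  rw [h1, ← Real.exp_add]
  calc ‖Complex.exp ζ - 1‖ ≤ Real.exp ‖ζ‖ - 1 := norm_exp_sub_one_le' ζ
    _ ≤ Real.exp ‖ζ‖ := by linarith
    _ ≤ _ := Real.exp_le_exp.2 (h2.trans h3)

theorem exp_min_le {x : ℝ} (hx : x ≤ p.K) : Real.exp (4 * x / p.r0) ≤ p.E := by
  refine le_trans (Real.exp_le_exp.2 ?_) p.hEK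
  have hr := p.r0_pos
  exact div_le_div_of_nonneg_right (by linarith) hr.le

theorem exp_eighth_sq : Real.exp (1 / 8) * Real.exp (1 / 8) ≤ 2 := by
  rw [← Real.exp_add]
  have := exp_quarter
  norm_num at this ⊢
  exact this

theorem exp_eighth : Real.exp (1 / 8) ≤ 2 := by
  have h1 := exp_eighth_sq
  have h2 : 1 ≤ Real.exp (1 / 8) := Real.one_le_exp (by norm_num)
  nlinarith

/-- Crude bound for all allowed weights. -/
theorem Allowed.norm_le {p : Params} {a b : ℝ} {y : ℂ} (h : p.Allowed a b y)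
    (ha' : a ≤ p.K) (hb' : b ≤ p.K) : ‖y - 1‖ ≤ 2 * p.E := by
  have hE := p.hE
  rcases h with h | h
  · rw [h]
    simp
    linarith
  · refine (h.norm_le ha' hb').trans ?_
    have h1 := p.exp_min_le (x := min a b) ((min_le_left _ _).trans ha')
    have h2 := exp_eighth
    have h3 : 0 < Real.exp (1 / 8) := Real.exp_pos _
    have h4 : 0 < Real.exp (4 * min a b / p.r0) := Real.exp_pos _
    nlinarith

/-- Either the weight is close to one or both costs are large. -/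
theorem Allowed.small_or {p : Params} {a b : ℝ} {y : ℂ} (h : p.Allowed a b y)
    (ha' : a ≤ p.K) (hb' : b ≤ p.K) :
    ‖y - 1‖ ≤ 1 ∨ (p.r0 / 32 < min a b ∧
      ‖y - 1‖ ≤ Real.exp (4 * min a b / p.r0) * Real.exp (1 / 8)) := by
  rcases h with h | h
  · left
    rw [h]
    simp
  · by_cases hmin : min a b ≤ p.r0 / 32
    · exact Or.inl (h.norm_le_one ha' hb' hmin)
    · exact Or.inr ⟨lt_of_not_ge hmin, h.norm_le ha' hb'⟩

/-- The product estimate. -/
theorem prod_bound {p : Params} {a b c d : ℝ} {y₁ y₂ : ℂ} (ha : a ≤ p.K) (hb : b ≤ p.K)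
    (hc : 0 ≤ c) (hd : 0 ≤ d) (hcd : c + d ≤ p.K) (h₁ : p.Allowed a c y₁)
    (h₂ : p.Allowed d b y₂) :
    ‖y₁ - 1‖ * ‖y₂ - 1‖ ≤ 1 ∨
      (‖y₁ - 1‖ * ‖y₂ - 1‖ ≤ 2 * p.E ∧ (p.r0 / 32 < a ∨ p.r0 / 32 < b)) := by
  have hE := p.hE
  have hc' : c ≤ p.K := by linarith
  have hd' : d ≤ p.K := by linarith
  have n1 := norm_nonneg (y₁ - 1)
  have n2 := norm_nonneg (y₂ - 1)
  have b1 := h₁.norm_le ha hc'
  have b2 := h₂.norm_le hd' hb
  rcases h₁.small_or ha hc' with s1 | ⟨l1, m1⟩ <;> rcases h₂.small_or hd' hb with s2 | ⟨l2, m2⟩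
  · left
    nlinarith
  · right
    refine ⟨?_, Or.inr (lt_of_lt_of_le l2 (min_le_right _ _))⟩
    nlinarith
  · right
    refine ⟨?_, Or.inl (lt_of_lt_of_le l1 (min_le_left _ _))⟩
    nlinarith
  · right
    refine ⟨?_, Or.inl (lt_of_lt_of_le l1 (min_le_left _ _))⟩
    have h3 : ‖y₁ - 1‖ * ‖y₂ - 1‖ ≤
        (Real.exp (4 * min a c / p.r0) * Real.exp (1 / 8)) *
          (Real.exp (4 * min d b / p.r0) * Real.exp (1 / 8)) :=
      mul_le_mul m1 m2 n2 (by positivity)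
    have h4 : (Real.exp (4 * min a c / p.r0) * Real.exp (1 / 8)) *
          (Real.exp (4 * min d b / p.r0) * Real.exp (1 / 8)) =
        (Real.exp (1 / 8) * Real.exp (1 / 8)) * Real.exp (4 * (min a c + min d b) / p.r0) := by
      have : 4 * (min a c + min d b) / p.r0 = 4 * min a c / p.r0 + 4 * min d b / p.r0 := by ring
      rw [this, Real.exp_add]
      ring
    have h5 : Real.exp (4 * (min a c + min d b) / p.r0) ≤ p.E := by
      apply p.exp_min_le
      have := min_le_right a c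
      have := min_le_left d b
      linarith
    have h6 := exp_eighth_sq
    have h7 : 0 < Real.exp (4 * (min a c + min d b) / p.r0) := Real.exp_pos _
    rw [h4] at h3
    nlinarith

/-- The series lemma. -/
theorem series {p : Params} {z : ℂ} (hz : p.r0 ≤ ‖z‖) {a b c d : ℝ} {y₁ y₂ : ℂ}
    (ha1 : 1 ≤ a) (hb1 : 1 ≤ b) (ha : a ≤ p.K) (hb : b ≤ p.K)
    (hc : 0 ≤ c) (hd : 0 ≤ d) (hcd : c + d ≤ p.K) (h₁ : p.Allowed a c y₁)
    (h₂ : p.Allowed d b y₂) :
    z - 2 + y₁ + y₂ ≠ 0 ∧ p.R a b (1 + (1 - y₁) * (1 - y₂) / (z - 2 + y₁ + y₂)) := by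
  have hE := p.hE
  have hr := p.r0_pos
  have hβ := p.β_nonneg
  have hr8 := p.hr0
  have b1 := h₁.norm_le ha (by linarith)
  have b2 := h₂.norm_le (by linarith : d ≤ p.K) hb
  have hD : p.r0 / 2 ≤ ‖z - 2 + y₁ + y₂‖ := by
    have e1 : z - 2 + y₁ + y₂ = z + ((y₁ - 1) + (y₂ - 1)) := by ring
    rw [e1]
    have h1 : ‖z‖ - ‖(y₁ - 1) + (y₂ - 1)‖ ≤ ‖z + ((y₁ - 1) + (y₂ - 1))‖ := by
      have := norm_sub_norm_le z (-((y₁ - 1) + (y₂ - 1)))
      rw [norm_neg, sub_neg_eq_add] at this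
      exact this
    have h2 : ‖(y₁ - 1) + (y₂ - 1)‖ ≤ ‖y₁ - 1‖ + ‖y₂ - 1‖ := norm_add_le _ _
    linarith
  have hDpos : 0 < ‖z - 2 + y₁ + y₂‖ := by linarith
  have hD0 : z - 2 + y₁ + y₂ ≠ 0 := norm_pos_iff.1 hDpos
  refine ⟨hD0, ?_⟩
  set t : ℂ := (1 - y₁) * (1 - y₂) / (z - 2 + y₁ + y₂) with ht
  have htn : ‖t‖ ≤ 2 * (‖y₁ - 1‖ * ‖y₂ - 1‖) / p.r0 := by
    rw [ht, norm_div, norm_mul, norm_sub_rev 1 y₁, norm_sub_rev 1 y₂]
    rw [div_le_div_iff₀ hDpos hr]
    have : 0 ≤ ‖y₁ - 1‖ * ‖y₂ - 1‖ := by positivity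
    nlinarith
  -- the key inequality
  have key : 4 * (‖y₁ - 1‖ * ‖y₂ - 1‖) / p.r0 ≤ p.ρ a b := by
    have hmin : 1 ≤ min a b := le_min ha1 hb1
    have hr4 : 0 ≤ 4 / p.r0 := by positivity
    rcases prod_bound ha hb hc hd hcd h₁ h₂ with h | ⟨h, hab⟩
    · have h1 : 4 * (‖y₁ - 1‖ * ‖y₂ - 1‖) / p.r0 ≤ 4 / p.r0 := by
        apply div_le_div_of_nonneg_right _ hr.le
        linarith
      have h2 : 4 / p.r0 ≤ 4 / p.r0 * min a b := by
        nlinarith
      have h3 : 0 ≤ p.β * (a + b) := by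
        apply mul_nonneg hβ
        linarith
      unfold ρ
      linarith
    · have h1 : 4 * (‖y₁ - 1‖ * ‖y₂ - 1‖) / p.r0 ≤ 8 * p.E / p.r0 := by
        apply div_le_div_of_nonneg_right _ hr.le
        linarith
      have h2 : 8 * p.E / p.r0 = p.β * (p.r0 / 32) := by
        rw [p.hβ]
        field_simp
        norm_num
      have h3 : p.β * (p.r0 / 32) ≤ p.β * (a + b) := by
        apply mul_le_mul_of_nonneg_left _ hβ
        rcases hab with h' | h' <;> linarith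
      have h4 : 0 ≤ 4 / p.r0 * min a b := by
        apply mul_nonneg hr4
        linarith
      unfold ρ
      linarith
  have hthalf : ‖t‖ ≤ 1 / 2 := by
    have h1 : ‖y₁ - 1‖ * ‖y₂ - 1‖ ≤ 2 * p.E := by
      rcases prod_bound ha hb hc hd hcd h₁ h₂ with h | ⟨h, -⟩
      · linarith
      · exact h
    refine htn.trans ?_
    rw [div_le_iff₀ hr]
    linarith
  refine ⟨Complex.log (1 + t), ?_, ?_⟩
  · rw [Complex.exp_log]
    intro h0
    have h1 : t = -1 := by
      linear_combination h0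
    rw [h1] at hthalf
    norm_num at hthalf
  · refine (Complex.norm_log_one_add_half_le_self hthalf).trans ?_
    have h1 : (3 / 2) * ‖t‖ ≤ 2 * (2 * (‖y₁ - 1‖ * ‖y₂ - 1‖) / p.r0) := by
      have := norm_nonneg t
      linarith
    have h2 : 2 * (2 * (‖y₁ - 1‖ * ‖y₂ - 1‖) / p.r0) = 4 * (‖y₁ - 1‖ * ‖y₂ - 1‖) / p.r0 := by
      ring
    linarith

/-- The pendant vertex estimate. -/
theorem pendant {p : Params} {z : ℂ} (hz : p.r0 ≤ ‖z‖) {a b : ℝ} {y : ℂ}
    (ha : a ≤ p.K) (hb : b ≤ p.K) (h : p.Allowed a b y) : z - 1 + y ≠ 0 := by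
  have hE := p.hE
  have hr8 := p.hr0
  have b1 := h.norm_le ha hb
  intro h0
  have h1 : z = -(y - 1) := by linear_combination h0
  have h2 : ‖z‖ = ‖y - 1‖ := by rw [h1, norm_neg]
  linarith

end Params

/-- The parameters for maximum degree `k ≥ 2`, with constant `64`. -/
noncomputable def mkParams (k : ℕ) (hk : 2 ≤ k) : Params where
  K := k
  r0 := 64 * k / Real.log k
  E := Real.exp (Real.log k / 16)
  β := 256 * Real.exp (Real.log k / 16) / (64 * k / Real.log k) ^ 2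
  hK := by
    have : (2 : ℝ) ≤ k := by exact_mod_cast hk
    linarith
  hE := by
    apply Real.one_le_exp
    have : (2 : ℝ) ≤ k := by exact_mod_cast hk
    have := Real.log_nonneg (by linarith : (1 : ℝ) ≤ k)
    positivity
  hr0 := by
    have h2 : (2 : ℝ) ≤ k := by exact_mod_cast hk
    have hl : 0 < Real.log k := Real.log_pos (by linarith)
    rw [le_div_iff₀ hl]
    set ℓ := Real.log k with hℓ
    have hk' : (k : ℝ) = Real.exp ℓ := by
      rw [hℓ, Real.exp_log (by linarith)]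
    rw [hk']
    have h3 : ℓ ≤ Real.exp (ℓ / 2) * 2 := by
      have := Real.add_one_le_exp (ℓ / 2)
      linarith
    have h4 : Real.exp ℓ = Real.exp (ℓ / 2) * Real.exp (ℓ / 2) := by
      rw [← Real.exp_add]
      congr 1
      ring
    have h5 : Real.exp (ℓ / 16) ≤ Real.exp (ℓ / 2) := Real.exp_le_exp.2 (by linarith)
    have h6 : 0 < Real.exp (ℓ / 2) := Real.exp_pos _
    have h7 : 0 < Real.exp (ℓ / 16) := Real.exp_pos _
    rw [h4]
    nlinarith [mul_le_mul h5 h3 hl.le h6.le]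
  hβ := rfl
  hβK := by
    have h2 : (2 : ℝ) ≤ k := by exact_mod_cast hk
    have hl : 0 < Real.log k := Real.log_pos (by linarith)
    set ℓ := Real.log k with hℓ
    have hk' : (k : ℝ) = Real.exp ℓ := by
      rw [hℓ, Real.exp_log (by linarith)]
    have hkpos : (0 : ℝ) < k := by linarith
    have e1 : 2 * (256 * Real.exp (ℓ / 16) / (64 * k / ℓ) ^ 2) * k =
        Real.exp (ℓ / 16) * ℓ ^ 2 / (8 * k) := by
      field_simp
      norm_num
    rw [e1, div_le_iff₀ (by positivity)]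
    have h3 : ℓ ≤ Real.exp (15 * ℓ / 32) := by
      have h1 := Real.add_one_le_exp (15 * ℓ / 32 - 1)
      have h4 : Real.exp (15 * ℓ / 32) = Real.exp (15 * ℓ / 32 - 1) * Real.exp 1 := by
        rw [← Real.exp_add]
        congr 1
        ring
      have h5 := Real.exp_one_gt_d9
      rw [h4]
      have h6 : 0 < Real.exp (15 * ℓ / 32 - 1) := Real.exp_pos _
      nlinarith
    have h4 : (k : ℝ) = Real.exp (ℓ / 16) * (Real.exp (15 * ℓ / 32) * Real.exp (15 * ℓ / 32)) := by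
      rw [hk', ← Real.exp_add, ← Real.exp_add]
      congr 1
      ring
    have h7 : 0 < Real.exp (ℓ / 16) := Real.exp_pos _
    have h8 : ℓ ^ 2 ≤ Real.exp (15 * ℓ / 32) * Real.exp (15 * ℓ / 32) := by
      nlinarith
    have h9 : Real.exp (ℓ / 16) * ℓ ^ 2 ≤ k := by
      calc Real.exp (ℓ / 16) * ℓ ^ 2 ≤
          Real.exp (ℓ / 16) * (Real.exp (15 * ℓ / 32) * Real.exp (15 * ℓ / 32)) :=
            mul_le_mul_of_nonneg_left h8 h7.le
        _ = k := h4.symm
    linarith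
  hEK := by
    have h2 : (2 : ℝ) ≤ k := by exact_mod_cast hk
    have hl : 0 < Real.log k := Real.log_pos (by linarith)
    have hkpos : (0 : ℝ) < k := by linarith
    apply le_of_eq
    congr 1
    field_simp
    norm_num

end Pool.Agent.H19SP
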