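import Mathlib

set_option autoImplicit false

namespace Pool.Agent.H19SP

variable {V : Type*}

/-- Cut-connectedness of a vertex set. -/
def Conn (G : SimpleGraph V) (S : Set V) : Prop :=
  S.Nonempty ∧ ∀ T : Set V, T ⊆ S → T.Nonempty → (S \ T).Nonempty →
    ∃ x ∈ T, ∃ y ∈ S \ T, G.Adj x y

/-- Two vertex sets are joined by an edge. -/
def Touch (G : SimpleGraph V) (A B : Set V) : Prop := ∃ x ∈ A, ∃ y ∈ B, G.Adj x y

theorem Touch.symm {G : SimpleGraph V} {A B : Set V} (h : Touch G A B) : Touch G B A := by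
  obtain ⟨x, hx, y, hy, hxy⟩ := h
  exact ⟨y, hy, x, hx, hxy.symm⟩

theorem Touch.mono {G : SimpleGraph V} {A B A' B' : Set V} (h : Touch G A B) (hA : A ⊆ A')
    (hB : B ⊆ B') : Touch G A' B' := by
  obtain ⟨x, hx, y, hy, hxy⟩ := h
  exact ⟨x, hA hx, y, hB hy, hxy⟩

theorem Conn.mono_graph {G G' : SimpleGraph V} {S : Set V} (h : Conn G S)
    (hG : ∀ x ∈ S, ∀ y ∈ S, G.Adj x y → G'.Adj x y) : Conn G' S := by
  refine ⟨h.1, fun T hT hTn hc => ?_⟩
  obtain ⟨x, hx, y, hy, hxy⟩ := h.2 T hT hTn hc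
  exact ⟨x, hx, y, hy, hG x (hT hx) y hy.1 hxy⟩

theorem conn_singleton (G : SimpleGraph V) (v : V) : Conn G {v} := by
  refine ⟨⟨v, rfl⟩, fun T hT hTn hc => ?_⟩
  exfalso
  obtain ⟨t, ht⟩ := hTn
  obtain ⟨s, hs, hs'⟩ := hc
  have h1 : t = v := hT ht
  have h2 : s = v := hs
  exact hs' (by rw [h2, ← h1]; exact ht)

theorem Conn.union {G : SimpleGraph V} {A B : Set V} (hA : Conn G A) (hB : Conn G B)
    (hAB : Touch G A B) : Conn G (A ∪ B) := by
  refine ⟨hA.1.mono Set.subset_union_left, fun T hT hTn hc => ?_⟩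
  by_cases h1 : (A ∩ T).Nonempty ∧ (A \ (A ∩ T)).Nonempty
  · obtain ⟨x, hx, y, hy, hxy⟩ := hA.2 (A ∩ T) Set.inter_subset_left h1.1 h1.2
    exact ⟨x, hx.2, y, ⟨Or.inl hy.1, fun hyT => hy.2 ⟨hy.1, hyT⟩⟩, hxy⟩
  by_cases h2 : (B ∩ T).Nonempty ∧ (B \ (B ∩ T)).Nonempty
  · obtain ⟨x, hx, y, hy, hxy⟩ := hB.2 (B ∩ T) Set.inter_subset_left h2.1 h2.2
    exact ⟨x, hx.2, y, ⟨Or.inr hy.1, fun hyT => hy.2 ⟨hy.1, hyT⟩⟩, hxy⟩
  have key : ∀ C : Set V, ¬ ((C ∩ T).Nonempty ∧ (C \ (C ∩ T)).Nonempty) →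
      (∀ x ∈ C, x ∉ T) ∨ (∀ x ∈ C, x ∈ T) := by
    intro C hC
    by_cases h : (C ∩ T).Nonempty
    · right
      intro x hx
      by_contra hxT
      exact hC ⟨h, x, hx, fun h' => hxT h'.2⟩
    · left
      intro x hx hxT
      exact h ⟨x, hx, hxT⟩
  obtain ⟨x, hx, y, hy, hxy⟩ := hAB
  rcases key A h1 with ha | ha <;> rcases key B h2 with hb | hb
  · exfalso
    obtain ⟨t, ht⟩ := hTn
    rcases hT ht with h | h
    · exact ha t h ht
    · exact hb t h ht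
  · exact ⟨y, hb y hy, x, ⟨Or.inl hx, ha x hx⟩, hxy.symm⟩
  · exact ⟨x, ha x hx, y, ⟨Or.inr hy, hb y hy⟩, hxy⟩
  · exfalso
    obtain ⟨s, hs, hs'⟩ := hc
    rcases hs with h | h
    · exact hs' (ha s h)
    · exact hs' (hb s h)

theorem Conn.insert {G : SimpleGraph V} {A : Set V} (hA : Conn G A) {v w : V} (hw : w ∈ A)
    (hwv : G.Adj w v) : Conn G (A ∪ {v}) :=
  hA.union (conn_singleton G v) ⟨w, hw, v, rfl, hwv⟩

/-- Cut-connected sets induce connected subgraphs. -/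
theorem Conn.induce_connected {G : SimpleGraph V} {S : Set V} (h : Conn G S) :
    (G.induce S).Connected := by
  obtain ⟨x, hx⟩ := h.1
  have : Nonempty S := ⟨⟨x, hx⟩⟩
  refine ⟨?_⟩
  intro a b
  by_contra hab
  let T : Set V := {v | ∃ hv : v ∈ S, (G.induce S).Reachable a ⟨v, hv⟩}
  have hTS : T ⊆ S := fun v hv => hv.1
  have hTn : T.Nonempty := ⟨a.1, a.2, SimpleGraph.Reachable.refl _⟩
  have hc : (S \ T).Nonempty := ⟨b.1, b.2, fun hb => hab (by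
    obtain ⟨_, h2⟩ := hb
    exact h2)⟩
  obtain ⟨u, hu, w, hw, huw⟩ := h.2 T hTS hTn hc
  apply hw.2
  obtain ⟨huS, hr⟩ := hu
  refine ⟨hw.1, hr.trans ?_⟩
  apply SimpleGraph.Adj.reachable
  simpa using huw

/-- Splitting a connected set into two connected parts separating two given vertices. -/
theorem Conn.split [Finite V] {G : SimpleGraph V} {B : Set V} (hB : Conn G B) {d e : V}
    (hd : d ∈ B) (he : e ∈ B) (hde : d ≠ e) :
    ∃ B₁ B₂ : Set V, d ∈ B₁ ∧ e ∈ B₂ ∧ Disjoint B₁ B₂ ∧ B₁ ∪ B₂ = B ∧ Conn G B₁ ∧ Conn G B₂ := by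
  have h0 : (fun C : Set V => Conn G C ∧ d ∈ C ∧ C ⊆ B \ {e}) {d} :=
    ⟨conn_singleton G d, rfl, by
      intro x hx
      have hx' : x = d := hx
      subst hx'
      exact ⟨hd, hde⟩⟩
  obtain ⟨C, -, hC⟩ := Finite.exists_le_maximal (α := Set V)
    (p := fun C : Set V => Conn G C ∧ d ∈ C ∧ C ⊆ B \ {e}) h0
  obtain ⟨⟨hCc, hdC, hCB⟩, hmax⟩ := hC
  have heC : e ∉ C := fun h => (hCB h).2 rfl
  have hCB' : C ⊆ B := fun x hx => (hCB hx).1
  -- no vertex of `B \ C` other than `e` touches `C`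
  have hno : ∀ t ∈ B, t ∉ C → t ≠ e → ∀ c ∈ C, ¬ G.Adj c t := by
    intro t ht htC hte c hc hct
    have h1 : Conn G (C ∪ {t}) ∧ d ∈ C ∪ {t} ∧ C ∪ {t} ⊆ B \ {e} := by
      refine ⟨hCc.insert hc hct, Or.inl hdC, ?_⟩
      intro x hx
      rcases hx with hx | hx
      · exact hCB hx
      · have : x = t := hx
        subst this
        exact ⟨ht, hte⟩
    have h2 := hmax h1 Set.subset_union_left
    exact htC (h2 (Or.inr rfl))
  refine ⟨C, B \ C, hdC, ⟨he, heC⟩, Set.disjoint_sdiff_right, Set.union_sdiff_cancel hCB',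
    hCc, ⟨⟨e, he, heC⟩, ?_⟩⟩
  -- the complement is connected
  have main : ∀ T : Set V, T ⊆ B \ C → T.Nonempty → e ∉ T →
      ∃ x ∈ T, ∃ y ∈ (B \ C) \ T, G.Adj x y := by
    intro T hT hTn heT
    have hTB : T ⊆ B := fun x hx => (hT hx).1
    obtain ⟨x, hx, y, hy, hxy⟩ := hB.2 T hTB hTn ⟨e, he, heT⟩
    by_cases hyC : y ∈ C
    · exfalso
      exact hno x (hT hx).1 (hT hx).2 (fun h => heT (h ▸ hx)) y hyC hxy.symm
    · exact ⟨x, hx, y, ⟨⟨hy.1, hyC⟩, hy.2⟩, hxy⟩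
  intro T hT hTn hc
  by_cases heT : e ∈ T
  · obtain ⟨x, hx, y, hy, hxy⟩ := main ((B \ C) \ T) Set.sdiff_subset hc (fun h => h.2 heT)
    refine ⟨y, ?_, x, hx, hxy.symm⟩
    by_contra hyT
    exact hy.2 ⟨hy.1, hyT⟩
  · exact main T hT hTn heT

/-- A `K₃` model inside `W`. -/
structure K3 (G : SimpleGraph V) (W A B C : Set V) : Prop where
  sA : A ⊆ W
  sB : B ⊆ W
  sC : C ⊆ W
  cA : Conn G A
  cB : Conn G B
  cC : Conn G C
  dAB : Disjoint A B
  dAC : Disjoint A C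
  dBC : Disjoint B C
  tAB : Touch G A B
  tAC : Touch G A C
  tBC : Touch G B C

theorem K3.swap12 {G : SimpleGraph V} {W A B C : Set V} (h : K3 G W A B C) : K3 G W B A C :=
  ⟨h.sB, h.sA, h.sC, h.cB, h.cA, h.cC, h.dAB.symm, h.dBC, h.dAC, h.tAB.symm, h.tBC, h.tAC⟩

theorem K3.swap23 {G : SimpleGraph V} {W A B C : Set V} (h : K3 G W A B C) : K3 G W A C B :=
  ⟨h.sA, h.sC, h.sB, h.cA, h.cC, h.cB, h.dAC, h.dAB, h.dBC.symm, h.tAC, h.tAB, h.tBC.symm⟩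

theorem K3.mono {G : SimpleGraph V} {W W' A B C : Set V} (h : K3 G W A B C) (hW : W ⊆ W') :
    K3 G W' A B C :=
  ⟨h.sA.trans hW, h.sB.trans hW, h.sC.trans hW, h.cA, h.cB, h.cC, h.dAB, h.dAC, h.dBC, h.tAB,
    h.tAC, h.tBC⟩

/-- A `K₄` model. -/
def HasK4 (G : SimpleGraph V) : Prop :=
  ∃ f : Fin 4 → Set V, (∀ i, Conn G (f i)) ∧ (∀ i j, i ≠ j → Disjoint (f i) (f j)) ∧
    (∀ i j, i ≠ j → Touch G (f i) (f j))

theorem hasK4_of_K3 {G : SimpleGraph V} {W A B C D : Set V} (h : K3 G W A B C) (hD : Conn G D)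
    (hDW : Disjoint D W) (h1 : Touch G D A) (h2 : Touch G D B) (h3 : Touch G D C) : HasK4 G := by
  have dA : Disjoint D A := hDW.mono_right h.sA
  have dB : Disjoint D B := hDW.mono_right h.sB
  have dC : Disjoint D C := hDW.mono_right h.sC
  refine ⟨![D, A, B, C], ?_, ?_, ?_⟩
  · intro i
    fin_cases i
    · exact hD
    · exact h.cA
    · exact h.cB
    · exact h.cC
  · intro i j hij
    fin_cases i <;> fin_cases j <;> first | exact absurd rfl hij | skip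
    · exact dA
    · exact dB
    · exact dC
    · exact dA.symm
    · exact h.dAB
    · exact h.dAC
    · exact dB.symm
    · exact h.dAB.symm
    · exact h.dBC
    · exact dC.symm
    · exact h.dAC.symm
    · exact h.dBC.symm
  · intro i j hij
    fin_cases i <;> fin_cases j <;> first | exact absurd rfl hij | skip
    · exact h1
    · exact h2
    · exact h3
    · exact h1.symm
    · exact h.tAB
    · exact h.tAC
    · exact h2.symm
    · exact h.tAB.symm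
    · exact h.tBC
    · exact h3.symm
    · exact h.tAC.symm
    · exact h.tBC.symm


/-- The maximal connected subset of `F` around a vertex: it is closed under adjacency in `F`. -/
theorem exists_component [Finite V] (G : SimpleGraph V) {F : Set V} {x : V} (hx : x ∈ F) :
    ∃ K : Set V, Conn G K ∧ x ∈ K ∧ K ⊆ F ∧ ∀ v ∈ K, ∀ w ∈ F, G.Adj v w → w ∈ K := by
  have h0 : (fun C : Set V => Conn G C ∧ x ∈ C ∧ C ⊆ F) {x} :=
    ⟨conn_singleton G x, rfl, by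
      intro y hy
      have hy' : y = x := hy
      rw [hy']
      exact hx⟩
  obtain ⟨K, -, hK⟩ := Finite.exists_le_maximal (α := Set V)
    (p := fun C : Set V => Conn G C ∧ x ∈ C ∧ C ⊆ F) h0
  obtain ⟨⟨hKc, hxK, hKF⟩, hmax⟩ := hK
  refine ⟨K, hKc, hxK, hKF, ?_⟩
  intro v hv w hw hvw
  have h1 : Conn G (K ∪ {w}) ∧ x ∈ K ∪ {w} ∧ K ∪ {w} ⊆ F := by
    refine ⟨hKc.insert hv hvw, Or.inl hxK, ?_⟩
    intro y hy
    rcases hy with hy | hy
    · exact hKF hy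
    · have : y = w := hy
      rw [this]
      exact hw
  exact hmax h1 Set.subset_union_left (Or.inr rfl)

/-- Level two: if all vertices of `F` except possibly one have two neighbours in `F`, and `F`
contains an edge, then `F` contains a `K₃` model. -/
theorem exists_K3 [Finite V] {G : SimpleGraph V} {F : Set V} {z : V}
    (hedge : ∃ x ∈ F, ∃ y ∈ F, G.Adj x y)
    (hdeg : ∀ v ∈ F, v ≠ z → ∃ a ∈ F, ∃ b ∈ F, a ≠ b ∧ G.Adj v a ∧ G.Adj v b) :
    ∃ A B C, K3 G F A B C := by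
  classical
  obtain ⟨x0, hx0, y0, hy0, hxy0⟩ := hedge
  obtain ⟨K, hKc, hx0K, hKF, hKcl⟩ := exists_component G hx0
  have hy0K : y0 ∈ K := hKcl x0 hx0K y0 hy0 hxy0
  -- choose a root
  obtain ⟨r, hrK, hr⟩ : ∃ r ∈ K, ∀ v ∈ K, v ≠ r →
      ∃ a ∈ K, ∃ b ∈ K, a ≠ b ∧ G.Adj v a ∧ G.Adj v b := by
    by_cases hz : z ∈ K
    · refine ⟨z, hz, fun v hv hvz => ?_⟩
      obtain ⟨a, ha, b, hb, hab, h1, h2⟩ := hdeg v (hKF hv) hvz
      exact ⟨a, hKcl v hv a ha h1, b, hKcl v hv b hb h2, hab, h1, h2⟩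
    · refine ⟨x0, hx0K, fun v hv hvx => ?_⟩
      obtain ⟨a, ha, b, hb, hab, h1, h2⟩ := hdeg v (hKF hv) (fun h => hz (h ▸ hv))
      exact ⟨a, hKcl v hv a ha h1, b, hKcl v hv b hb h2, hab, h1, h2⟩
  -- an edge avoiding the root
  have hedge2 : ∃ x ∈ K \ {r}, ∃ y ∈ K \ {r}, G.Adj x y := by
    obtain ⟨v, hv, hvr⟩ : ∃ v ∈ K, v ≠ r := by
      by_cases h : x0 = r
      · refine ⟨y0, hy0K, ?_⟩
        rw [← h]
        exact hxy0.ne'
      · exact ⟨x0, hx0K, h⟩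
    obtain ⟨a, ha, b, hb, hab, h1, h2⟩ := hr v hv hvr
    by_cases har : a = r
    · refine ⟨v, ⟨hv, hvr⟩, b, ⟨hb, ?_⟩, h2⟩
      intro hbr
      exact hab (har.trans (Set.mem_singleton_iff.1 hbr).symm)
    · exact ⟨v, ⟨hv, hvr⟩, a, ⟨ha, har⟩, h1⟩
  let p : Set V → Prop := fun D => Conn G D ∧ r ∈ D ∧ D ⊆ K ∧
    ∃ x ∈ K \ D, ∃ y ∈ K \ D, G.Adj x y
  have h0 : p {r} := ⟨conn_singleton G r, rfl, by
    intro y hy
    rw [Set.mem_singleton_iff.1 hy]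
    exact hrK, hedge2⟩
  obtain ⟨D, -, hD⟩ := Finite.exists_le_maximal (α := Set V) (p := p) h0
  obtain ⟨⟨hDc, hrD, hDK, x, hx, y, hy, hxy⟩, hmax⟩ := hD
  obtain ⟨d, hd, a, ha, hda⟩ := hKc.2 D hDK hDc.1 ⟨x, hx⟩
  -- every edge in `K \ D` contains `a`
  have hall : ∀ x ∈ K \ D, ∀ y ∈ K \ D, G.Adj x y → x = a ∨ y = a := by
    intro x hx y hy hxy
    by_contra hcon
    push Not at hcon
    have h1 : p (D ∪ {a}) := by
      refine ⟨hDc.insert hd hda, Or.inl hrD, ?_, x, ⟨hx.1, ?_⟩, y, ⟨hy.1, ?_⟩, hxy⟩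
      · intro t ht
        rcases ht with ht | ht
        · exact hDK ht
        · rw [Set.mem_singleton_iff.1 ht]
          exact ha.1
      · rintro (h | h)
        · exact hx.2 h
        · exact hcon.1 h
      · rintro (h | h)
        · exact hy.2 h
        · exact hcon.2 h
    exact ha.2 (hmax h1 Set.subset_union_left (Or.inr rfl))
  obtain ⟨b, hb, hab⟩ : ∃ b ∈ K \ D, G.Adj a b := by
    rcases hall x hx y hy hxy with h | h
    · subst h
      exact ⟨y, hy, hxy⟩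
    · subst h
      exact ⟨x, hx, hxy.symm⟩
  have hbr : b ≠ r := fun h => hb.2 (h ▸ hrD)
  have hbD : ∃ e ∈ D, G.Adj b e := by
    obtain ⟨s, hs, t, ht, hst, h1, h2⟩ := hr b hb.1 hbr
    have aux : ∀ s ∈ K, s ≠ a → G.Adj b s → s ∈ D := by
      intro s hs hsa hbs
      by_contra hsD
      rcases hall b hb s ⟨hs, hsD⟩ hbs with h | h
      · exact hab.ne' h
      · exact hsa h
    by_cases hsa : s = a
    · exact ⟨t, aux t ht (fun h => hst (hsa.trans h.symm)) h2, h2⟩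
    · exact ⟨s, aux s hs hsa h1, h1⟩
  obtain ⟨e, he, hbe⟩ := hbD
  refine ⟨D, {a}, {b}, ⟨hDK.trans hKF, ?_, ?_, hDc, conn_singleton G a, conn_singleton G b, ?_,
    ?_, ?_, ⟨d, hd, a, rfl, hda⟩, ⟨e, he, b, rfl, hbe.symm⟩, ⟨a, rfl, b, rfl, hab⟩⟩⟩
  · intro t ht
    rw [Set.mem_singleton_iff.1 ht]
    exact hKF ha.1
  · intro t ht
    rw [Set.mem_singleton_iff.1 ht]
    exact hKF hb.1
  · rw [Set.disjoint_singleton_right]
    exact ha.2
  · rw [Set.disjoint_singleton_right]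
    exact hb.2
  · rw [Set.disjoint_singleton_right]
    intro h
    exact hab.ne' (Set.mem_singleton_iff.1 h)

/-- The rebalancing step. -/
theorem K3.step [Finite V] {G : SimpleGraph V} {W N A B C : Set V} (h : K3 G W A B C)
    (hN : ∀ A' B' C', K3 G W A' B' C' → N ⊆ A' ∪ B' ∪ C') {d e : V} (hd : d ∈ B) (he : e ∈ B)
    (hdN : d ∈ N) (heN : e ∈ N) (hde : d ≠ e) :
    ∃ A' B', K3 G W A' B' C ∧ (N ∩ A').Nonempty ∧ (N ∩ B').Nonempty := by
  obtain ⟨B₁, B₂, hd1, he2, hdis, hun, hc1, hc2⟩ := h.cB.split hd he hde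
  have hs1 : B₁ ⊆ B := hun ▸ Set.subset_union_left
  have hs2 : B₂ ⊆ B := hun ▸ Set.subset_union_right
  have t12 : Touch G B₁ B₂ := by
    obtain ⟨x, hx, y, hy, hxy⟩ := h.cB.2 B₁ hs1 hc1.1
      ⟨e, he, fun h' => Set.disjoint_left.1 hdis h' he2⟩
    refine ⟨x, hx, y, ?_, hxy⟩
    have h3 : y ∈ B₁ ∪ B₂ := hun ▸ hy.1
    exact h3.resolve_left hy.2
  have tA : Touch G A B₁ ∨ Touch G A B₂ := by
    obtain ⟨x, hx, y, hy, hxy⟩ := h.tAB
    have h3 : y ∈ B₁ ∪ B₂ := hun ▸ hy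
    rcases h3 with h3 | h3
    · exact Or.inl ⟨x, hx, y, h3, hxy⟩
    · exact Or.inr ⟨x, hx, y, h3, hxy⟩
  have tC : Touch G B₁ C ∨ Touch G B₂ C := by
    obtain ⟨x, hx, y, hy, hxy⟩ := h.tBC
    have h3 : x ∈ B₁ ∪ B₂ := hun ▸ hx
    rcases h3 with h3 | h3
    · exact Or.inl ⟨x, h3, y, hy, hxy⟩
    · exact Or.inr ⟨x, h3, y, hy, hxy⟩
  have heA : e ∉ A := fun h' => Set.disjoint_left.1 h.dAB h' he
  have hdA : d ∉ A := fun h' => Set.disjoint_left.1 h.dAB h' hd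
  have heC : e ∉ C := fun h' => Set.disjoint_left.1 h.dBC he h'
  have hdC : d ∉ C := fun h' => Set.disjoint_left.1 h.dBC hd h'
  have case1 : Touch G A B₁ → Touch G B₂ C →
      ∃ A' B', K3 G W A' B' C ∧ (N ∩ A').Nonempty ∧ (N ∩ B').Nonempty := by
    intro t1 t2
    refine ⟨A ∪ B₁, B₂, ⟨Set.union_subset h.sA (hs1.trans h.sB), hs2.trans h.sB, h.sC,
      h.cA.union hc1 t1, hc2, h.cC, ?_, ?_, h.dBC.mono_left hs2,
      t12.mono Set.subset_union_right le_rfl, h.tAC.mono Set.subset_union_left le_rfl, t2⟩,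
      ⟨d, hdN, Or.inr hd1⟩, ⟨e, heN, he2⟩⟩
    · exact Set.disjoint_union_left.2 ⟨h.dAB.mono_right hs2, hdis⟩
    · exact Set.disjoint_union_left.2 ⟨h.dAC, h.dBC.mono_left hs1⟩
  have case2 : Touch G A B₂ → Touch G B₁ C →
      ∃ A' B', K3 G W A' B' C ∧ (N ∩ A').Nonempty ∧ (N ∩ B').Nonempty := by
    intro t1 t2
    refine ⟨A ∪ B₂, B₁, ⟨Set.union_subset h.sA (hs2.trans h.sB), hs1.trans h.sB, h.sC,
      h.cA.union hc2 t1, hc1, h.cC, ?_, ?_, h.dBC.mono_left hs1,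
      t12.symm.mono Set.subset_union_right le_rfl, h.tAC.mono Set.subset_union_left le_rfl, t2⟩,
      ⟨e, heN, Or.inr he2⟩, ⟨d, hdN, hd1⟩⟩
    · exact Set.disjoint_union_left.2 ⟨h.dAB.mono_right hs1, hdis.symm⟩
    · exact Set.disjoint_union_left.2 ⟨h.dAC, h.dBC.mono_left hs2⟩
  have case3 : Touch G A B₁ → Touch G B₁ C → False := by
    intro t1 t2
    have hk : K3 G W A B₁ C := ⟨h.sA, hs1.trans h.sB, h.sC, h.cA, hc1, h.cC,
      h.dAB.mono_right hs1, h.dAC, h.dBC.mono_left hs1, t1, h.tAC, t2⟩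
    rcases hN A B₁ C hk heN with (h' | h') | h'
    · exact heA h'
    · exact Set.disjoint_left.1 hdis h' he2
    · exact heC h'
  have case4 : Touch G A B₂ → Touch G B₂ C → False := by
    intro t1 t2
    have hk : K3 G W A B₂ C := ⟨h.sA, hs2.trans h.sB, h.sC, h.cA, hc2, h.cC,
      h.dAB.mono_right hs2, h.dAC, h.dBC.mono_left hs2, t1, h.tAC, t2⟩
    rcases hN A B₂ C hk hdN with (h' | h') | h'
    · exact hdA h'
    · exact Set.disjoint_left.1 hdis hd1 h'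
    · exact hdC h'
  rcases tA with t1 | t1 <;> rcases tC with t2 | t2
  · exact (case3 t1 t2).elim
  · exact case1 t1 t2
  · exact case2 t1 t2
  · exact (case4 t1 t2).elim

/-- From a `K₃` model with two good parts to one with three good parts. -/
theorem K3.balance2 [Finite V] {G : SimpleGraph V} {W N A B C : Set V} (h : K3 G W A B C)
    (hN : ∀ A' B' C', K3 G W A' B' C' → N ⊆ A' ∪ B' ∪ C') {d e f : V}
    (hd : d ∈ N) (he : e ∈ N) (hf : f ∈ N) (hde : d ≠ e) (hdf : d ≠ f) (hef : e ≠ f)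
    (gA : (N ∩ A).Nonempty) (gB : (N ∩ B).Nonempty) :
    ∃ A' B' C', K3 G W A' B' C' ∧ (N ∩ A').Nonempty ∧ (N ∩ B').Nonempty ∧ (N ∩ C').Nonempty := by
  by_cases gC : (N ∩ C).Nonempty
  · exact ⟨A, B, C, h, gA, gB, gC⟩
  have hsub := hN A B C h
  have hAB : ∀ x ∈ N, x ∈ A ∨ x ∈ B := by
    intro x hx
    rcases hsub hx with h' | h'
    · exact h'
    · exact (gC ⟨x, hx, h'⟩).elim
  have twoB : ∀ x ∈ N, ∀ y ∈ N, x ≠ y → x ∈ B → y ∈ B →
      ∃ A' B' C', K3 G W A' B' C' ∧ (N ∩ A').Nonempty ∧ (N ∩ B').Nonempty ∧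
        (N ∩ C').Nonempty := by
    intro x hx y hy hxy hxB hyB
    have hk : K3 G W C B A := h.swap12.swap23.swap12
    obtain ⟨C', B', hk', g1, g2⟩ := hk.step hN hxB hyB hx hy hxy
    exact ⟨C', B', A, hk', g1, g2, gA⟩
  have twoA : ∀ x ∈ N, ∀ y ∈ N, x ≠ y → x ∈ A → y ∈ A →
      ∃ A' B' C', K3 G W A' B' C' ∧ (N ∩ A').Nonempty ∧ (N ∩ B').Nonempty ∧
        (N ∩ C').Nonempty := by
    intro x hx y hy hxy hxA hyA
    have hk : K3 G W C A B := h.swap23.swap12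
    obtain ⟨C', A', hk', g1, g2⟩ := hk.step hN hxA hyA hx hy hxy
    exact ⟨C', A', B, hk', g1, g2, gB⟩
  rcases hAB d hd with h1 | h1 <;> rcases hAB e he with h2 | h2
  · exact twoA d hd e he hde h1 h2
  · rcases hAB f hf with h3 | h3
    · exact twoA d hd f hf hdf h1 h3
    · exact twoB e he f hf hef h2 h3
  · rcases hAB f hf with h3 | h3
    · exact twoA e he f hf hef h2 h3
    · exact twoB d hd f hf hdf h1 h3
  · exact twoB d hd e he hde h1 h2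

/-- Rebalancing a `K₃` model. -/
theorem K3.balance [Finite V] {G : SimpleGraph V} {W N A B C : Set V} (h : K3 G W A B C)
    (hN : ∀ A' B' C', K3 G W A' B' C' → N ⊆ A' ∪ B' ∪ C') {d e f : V}
    (hd : d ∈ N) (he : e ∈ N) (hf : f ∈ N) (hde : d ≠ e) (hdf : d ≠ f) (hef : e ≠ f) :
    ∃ A' B' C', K3 G W A' B' C' ∧ (N ∩ A').Nonempty ∧ (N ∩ B').Nonempty ∧ (N ∩ C').Nonempty := by
  have two : ∀ A B C, K3 G W A B C → ∀ x ∈ N, ∀ y ∈ N, x ≠ y → x ∈ B → y ∈ B →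
      ∃ A' B' C', K3 G W A' B' C' ∧ (N ∩ A').Nonempty ∧ (N ∩ B').Nonempty ∧
        (N ∩ C').Nonempty := by
    intro A B C hk x hx y hy hxy hxB hyB
    obtain ⟨A', B', hk', g1, g2⟩ := hk.step hN hxB hyB hx hy hxy
    exact hk'.balance2 hN hd he hf hde hdf hef g1 g2
  have key : ((N ∩ A).Nonempty ∧ (N ∩ B).Nonempty ∧ (N ∩ C).Nonempty) ∨
      (∃ x ∈ N, ∃ y ∈ N, x ≠ y ∧ x ∈ A ∧ y ∈ A) ∨ (∃ x ∈ N, ∃ y ∈ N, x ≠ y ∧ x ∈ B ∧ y ∈ B) ∨
      (∃ x ∈ N, ∃ y ∈ N, x ≠ y ∧ x ∈ C ∧ y ∈ C) := by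
    have hsub := hN A B C h
    rcases hsub hd with (h1 | h1) | h1 <;> rcases hsub he with (h2 | h2) | h2
    · exact Or.inr (Or.inl ⟨d, hd, e, he, hde, h1, h2⟩)
    · rcases hsub hf with (h3 | h3) | h3
      · exact Or.inr (Or.inl ⟨d, hd, f, hf, hdf, h1, h3⟩)
      · exact Or.inr (Or.inr (Or.inl ⟨e, he, f, hf, hef, h2, h3⟩))
      · exact Or.inl ⟨⟨d, hd, h1⟩, ⟨e, he, h2⟩, ⟨f, hf, h3⟩⟩
    · rcases hsub hf with (h3 | h3) | h3
      · exact Or.inr (Or.inl ⟨d, hd, f, hf, hdf, h1, h3⟩)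
      · exact Or.inl ⟨⟨d, hd, h1⟩, ⟨f, hf, h3⟩, ⟨e, he, h2⟩⟩
      · exact Or.inr (Or.inr (Or.inr ⟨e, he, f, hf, hef, h2, h3⟩))
    · rcases hsub hf with (h3 | h3) | h3
      · exact Or.inr (Or.inl ⟨e, he, f, hf, hef, h2, h3⟩)
      · exact Or.inr (Or.inr (Or.inl ⟨d, hd, f, hf, hdf, h1, h3⟩))
      · exact Or.inl ⟨⟨e, he, h2⟩, ⟨d, hd, h1⟩, ⟨f, hf, h3⟩⟩
    · exact Or.inr (Or.inr (Or.inl ⟨d, hd, e, he, hde, h1, h2⟩))
    · rcases hsub hf with (h3 | h3) | h3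
      · exact Or.inl ⟨⟨f, hf, h3⟩, ⟨d, hd, h1⟩, ⟨e, he, h2⟩⟩
      · exact Or.inr (Or.inr (Or.inl ⟨d, hd, f, hf, hdf, h1, h3⟩))
      · exact Or.inr (Or.inr (Or.inr ⟨e, he, f, hf, hef, h2, h3⟩))
    · rcases hsub hf with (h3 | h3) | h3
      · exact Or.inr (Or.inl ⟨e, he, f, hf, hef, h2, h3⟩)
      · exact Or.inl ⟨⟨e, he, h2⟩, ⟨f, hf, h3⟩, ⟨d, hd, h1⟩⟩
      · exact Or.inr (Or.inr (Or.inr ⟨d, hd, f, hf, hdf, h1, h3⟩))
    · rcases hsub hf with (h3 | h3) | h3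
      · exact Or.inl ⟨⟨f, hf, h3⟩, ⟨e, he, h2⟩, ⟨d, hd, h1⟩⟩
      · exact Or.inr (Or.inr (Or.inl ⟨e, he, f, hf, hef, h2, h3⟩))
      · exact Or.inr (Or.inr (Or.inr ⟨d, hd, f, hf, hdf, h1, h3⟩))
    · exact Or.inr (Or.inr (Or.inr ⟨d, hd, e, he, hde, h1, h2⟩))
  rcases key with h' | ⟨x, hx, y, hy, hxy, h1, h2⟩ | ⟨x, hx, y, hy, hxy, h1, h2⟩ |
    ⟨x, hx, y, hy, hxy, h1, h2⟩
  · exact ⟨A, B, C, h, h'⟩
  · exact two B A C h.swap12 x hx y hy hxy h1 h2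
  · exact two A B C h x hx y hy hxy h1 h2
  · exact two A C B h.swap23 x hx y hy hxy h1 h2

/-- A connected closed set of vertices of degree at least three yields a `K₄` model. -/
theorem hasK4_of_deg [Finite V] {G : SimpleGraph V} {K : Set V} (hK : Conn G K)
    (hcl : ∀ v ∈ K, ∀ w, G.Adj v w → w ∈ K)
    (hdeg : ∀ v ∈ K, ∃ a b c, a ≠ b ∧ a ≠ c ∧ b ≠ c ∧ G.Adj v a ∧ G.Adj v b ∧ G.Adj v c) :
    HasK4 G := by
  classical
  -- two of three neighbours avoid a given vertex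
  have avoid : ∀ v ∈ K, ∀ z, ∃ a b, a ≠ b ∧ a ≠ z ∧ b ≠ z ∧ G.Adj v a ∧ G.Adj v b := by
    intro v hv z
    obtain ⟨a, b, c, hab, hac, hbc, h1, h2, h3⟩ := hdeg v hv
    by_cases ha : a = z
    · exact ⟨b, c, hbc, fun h => hab (ha.trans h.symm), fun h => hac (ha.trans h.symm), h2, h3⟩
    · by_cases hb : b = z
      · exact ⟨a, c, hac, ha, fun h => hbc (hb.trans h.symm), h1, h3⟩
      · exact ⟨a, b, hab, ha, hb, h1, h2⟩
  obtain ⟨v0, hv0⟩ := hK.1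
  let p : Set V → Prop := fun D => Conn G D ∧ D ⊆ K ∧ ∃ A B C, K3 G (K \ D) A B C
  have h0 : p {v0} := by
    refine ⟨conn_singleton G v0, ?_, ?_⟩
    · intro y hy
      rw [Set.mem_singleton_iff.1 hy]
      exact hv0
    · refine exists_K3 (z := v0) ?_ ?_
      · obtain ⟨a, b, -, ha, -, h1, -⟩ := avoid v0 hv0 v0
        obtain ⟨c, d, -, hc, -, h3, -⟩ := avoid a (hcl v0 hv0 a h1) v0
        exact ⟨a, ⟨hcl v0 hv0 a h1, ha⟩, c, ⟨hcl a (hcl v0 hv0 a h1) c h3, hc⟩, h3⟩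
      · intro v hv _
        obtain ⟨a, b, hab, ha, hb, h1, h2⟩ := avoid v hv.1 v0
        exact ⟨a, ⟨hcl v hv.1 a h1, ha⟩, b, ⟨hcl v hv.1 b h2, hb⟩, hab, h1, h2⟩
  obtain ⟨D, -, hD⟩ := Finite.exists_le_maximal (α := Set V) (p := p) h0
  obtain ⟨⟨hDc, hDK, A, B, C, hABC⟩, hmax⟩ := hD
  let N : Set V := {z | z ∈ K \ D ∧ ∃ d ∈ D, G.Adj d z}
  have hno : ∀ z ∈ N, ∀ A B C, ¬ K3 G (K \ (D ∪ {z})) A B C := by
    intro z hz A B C hk
    obtain ⟨d, hd, hdz⟩ := hz.2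
    have h1 : p (D ∪ {z}) := by
      refine ⟨hDc.insert hd hdz, ?_, A, B, C, hk⟩
      intro t ht
      rcases ht with ht | ht
      · exact hDK ht
      · rw [Set.mem_singleton_iff.1 ht]
        exact hz.1.1
    exact hz.1.2 (hmax h1 Set.subset_union_left (Or.inr rfl))
  have hthree : ∀ z ∈ N, ∀ z' : V, ∃ n ∈ N, n ≠ z ∧ n ≠ z' := by
    intro z hz z'
    by_contra hcon
    push Not at hcon
    have hk3 : ∃ A B C, K3 G (K \ (D ∪ {z})) A B C := by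
      refine exists_K3 (z := z') ?_ ?_
      · -- an edge between two parts avoiding `z`
        have hin : ∀ {X Y : Set V}, X ⊆ K \ D → Y ⊆ K \ D → z ∉ X → z ∉ Y → Touch G X Y →
            ∃ x ∈ K \ (D ∪ {z}), ∃ y ∈ K \ (D ∪ {z}), G.Adj x y := by
          intro X Y hX hY hzX hzY hT
          obtain ⟨x, hx, y, hy, hxy⟩ := hT
          refine ⟨x, ⟨(hX hx).1, ?_⟩, y, ⟨(hY hy).1, ?_⟩, hxy⟩
          · rintro (h | h)
            · exact (hX hx).2 h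
            · rw [Set.mem_singleton_iff] at h
              exact hzX (h ▸ hx)
          · rintro (h | h)
            · exact (hY hy).2 h
            · rw [Set.mem_singleton_iff] at h
              exact hzY (h ▸ hy)
        by_cases hzA : z ∈ A
        · exact hin hABC.sB hABC.sC (Set.disjoint_left.1 hABC.dAB hzA)
            (Set.disjoint_left.1 hABC.dAC hzA) hABC.tBC
        · by_cases hzB : z ∈ B
          · exact hin hABC.sA hABC.sC hzA (Set.disjoint_left.1 hABC.dBC hzB) hABC.tAC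
          · exact hin hABC.sA hABC.sB hzA hzB hABC.tAB
      · intro v hv hvz'
        have hvz : v ≠ z := fun h => hv.2 (Or.inr h)
        have hvD : v ∉ D := fun h => hv.2 (Or.inl h)
        have hvN : v ∉ N := fun h => hvz' (hcon v h hvz)
        obtain ⟨a, b, hab, ha, hb, h1, h2⟩ := avoid v hv.1 z
        have aux : ∀ a, a ≠ z → G.Adj v a → a ∈ K \ (D ∪ {z}) := by
          intro a ha h1
          refine ⟨hcl v hv.1 a h1, ?_⟩
          rintro (h | h)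
          · exact hvN ⟨⟨hv.1, hvD⟩, a, h, h1.symm⟩
          · exact ha h
        exact ⟨a, aux a ha h1, b, aux b hb h2, hab, h1, h2⟩
    obtain ⟨A', B', C', hk'⟩ := hk3
    exact hno z hz A' B' C' hk'
  have hNe : ∃ n, n ∈ N := by
    obtain ⟨x, hx⟩ := hABC.cA.1
    obtain ⟨d, hd, a, ha, hda⟩ := hK.2 D hDK hDc.1 ⟨x, hABC.sA hx⟩
    exact ⟨a, ha, d, hd, hda⟩
  obtain ⟨d1, hd1⟩ := hNe
  obtain ⟨d2, hd2, h21, -⟩ := hthree d1 hd1 d1
  obtain ⟨d3, hd3, h31, h32⟩ := hthree d1 hd1 d2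
  have hsub : ∀ A' B' C', K3 G (K \ D) A' B' C' → N ⊆ A' ∪ B' ∪ C' := by
    intro A' B' C' hk n hn
    by_contra hcon
    apply hno n hn A' B' C'
    have h1 : ∀ X : Set V, X ⊆ K \ D → n ∉ X → X ⊆ K \ (D ∪ {n}) := by
      intro X hX hnX t ht
      refine ⟨(hX ht).1, ?_⟩
      rintro (h | h)
      · exact (hX ht).2 h
      · rw [Set.mem_singleton_iff] at h
        exact hnX (h ▸ ht)
    exact ⟨h1 _ hk.sA fun h => hcon (Or.inl (Or.inl h)),
      h1 _ hk.sB fun h => hcon (Or.inl (Or.inr h)), h1 _ hk.sC fun h => hcon (Or.inr h),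
      hk.cA, hk.cB, hk.cC, hk.dAB, hk.dAC, hk.dBC, hk.tAB, hk.tAC, hk.tBC⟩
  obtain ⟨A', B', C', hk, ⟨a, haN, haA⟩, ⟨b, hbN, hbB⟩, ⟨c, hcN, hcC⟩⟩ :=
    hABC.balance hsub hd1 hd2 hd3 h21.symm h31.symm h32.symm
  refine hasK4_of_K3 hk hDc Set.disjoint_sdiff_right ?_ ?_ ?_
  · obtain ⟨d, hd, hda⟩ := haN.2
    exact ⟨d, hd, a, haA, hda⟩
  · obtain ⟨d, hd, hda⟩ := hbN.2
    exact ⟨d, hd, b, hbB, hda⟩
  · obtain ⟨d, hd, hda⟩ := hcN.2
    exact ⟨d, hd, c, hcC, hda⟩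

/-- A graph without a `K₄` model and with an edge has a vertex of degree one or two. -/
theorem exists_low_degree [Finite V] {G : SimpleGraph V} (hG : ¬ HasK4 G) {x0 y0 : V}
    (h : G.Adj x0 y0) : ∃ v a b, G.Adj v a ∧ ∀ w, G.Adj v w → w = a ∨ w = b := by
  by_contra hcon
  push Not at hcon
  apply hG
  obtain ⟨K, hKc, hxK, -, hcl⟩ := exists_component G (F := Set.univ) (Set.mem_univ x0)
  have hyK : y0 ∈ K := hcl x0 hxK y0 (Set.mem_univ _) h
  refine hasK4_of_deg hKc (fun v hv w hvw => hcl v hv w (Set.mem_univ _) hvw) ?_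
  intro v hv
  obtain ⟨a, ha⟩ : ∃ a, G.Adj v a := by
    have hne : (K \ {v}).Nonempty := by
      by_cases hvx : v = x0
      · refine ⟨y0, hyK, ?_⟩
        rw [hvx]
        exact h.ne'
      · exact ⟨x0, hxK, fun h' => hvx (Set.mem_singleton_iff.1 h').symm⟩
    have hsv : ({v} : Set V) ⊆ K := by
      intro t ht
      rw [Set.mem_singleton_iff.1 ht]
      exact hv
    obtain ⟨x, hx, y, hy, hxy⟩ := hKc.2 {v} hsv ⟨v, rfl⟩ hne
    rw [Set.mem_singleton_iff.1 hx] at hxy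
    exact ⟨y, hxy⟩
  obtain ⟨b, hb, hba, -⟩ := hcon v a a ha
  obtain ⟨c, hc, hca, hcb⟩ := hcon v a b ha
  exact ⟨a, b, c, hba.symm, hca.symm, hcb.symm, ha, hb, hc⟩


theorem HasK4.mono {G G' : SimpleGraph V} (h : HasK4 G') (hle : G' ≤ G) : HasK4 G := by
  obtain ⟨f, h1, h2, h3⟩ := h
  refine ⟨f, fun i => (h1 i).mono_graph fun x _ y _ hxy => hle hxy, h2, fun i j hij => ?_⟩
  obtain ⟨x, hx, y, hy, hxy⟩ := h3 i j hij
  exact ⟨x, hx, y, hy, hle hxy⟩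

/-- Lifting a `K₄` model through a series reduction. -/
theorem HasK4.of_series {G G' : SimpleGraph V} {x u w : V} (hxu : G.Adj x u) (hxw : G.Adj x w)
    (hG : ∀ a b, G'.Adj a b → (G.Adj a b ∧ a ≠ x ∧ b ≠ x) ∨ (a = u ∧ b = w) ∨ (a = w ∧ b = u))
    (h : HasK4 G') : HasK4 G := by
  classical
  obtain ⟨f, h1, h2, h3⟩ := h
  have hiso : ∀ b, ¬ G'.Adj x b := by
    intro b hb
    rcases hG x b hb with h | h | h
    · exact h.2.1 rfl
    · exact hxu.ne h.1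
    · exact hxw.ne h.1
  have hx : ∀ i, x ∉ f i := by
    intro i hi
    by_cases hne : (f i \ {x}).Nonempty
    · have hsub : ({x} : Set V) ⊆ f i := by
        intro t ht
        rw [Set.mem_singleton_iff.1 ht]
        exact hi
      obtain ⟨a, ha, b, hb, hab⟩ := (h1 i).2 {x} hsub ⟨x, rfl⟩ hne
      rw [Set.mem_singleton_iff.1 ha] at hab
      exact hiso b hab
    · obtain ⟨j, hj⟩ : ∃ j : Fin 4, i ≠ j := by
        by_cases h0 : i = 0
        · exact ⟨1, by rw [h0]; decide⟩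
        · exact ⟨0, h0⟩
      obtain ⟨a, ha, b, hb, hab⟩ := h3 i j hj
      have hax : a = x := by
        by_contra hax
        exact hne ⟨a, ha, hax⟩
      rw [hax] at hab
      exact hiso b hab
  let g : Fin 4 → Set V := fun i => if u ∈ f i then f i ∪ {x} else f i
  have hfg : ∀ i, f i ⊆ g i := by
    intro i t ht
    by_cases hu : u ∈ f i
    · simp only [g, if_pos hu]
      exact Or.inl ht
    · simp only [g, if_neg hu]
      exact ht
  have hxg : ∀ i, u ∈ f i → x ∈ g i := by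
    intro i hu
    simp only [g, if_pos hu]
    exact Or.inr rfl
  have hgf : ∀ i t, t ∈ g i → t ∈ f i ∨ (t = x ∧ u ∈ f i) := by
    intro i t ht
    by_cases hu : u ∈ f i
    · simp only [g, if_pos hu] at ht
      rcases ht with ht | ht
      · exact Or.inl ht
      · exact Or.inr ⟨ht, hu⟩
    · simp only [g, if_neg hu] at ht
      exact Or.inl ht
  refine ⟨g, ?_, ?_, ?_⟩
  · intro i
    by_cases hu : u ∈ f i
    · refine ⟨⟨x, hxg i hu⟩, ?_⟩
      intro T hT hTn hc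
      by_cases hA : (f i ∩ T).Nonempty
      · by_cases hB : (f i \ (f i ∩ T)).Nonempty
        · obtain ⟨a, ha, b, hb, hab⟩ := (h1 i).2 (f i ∩ T) Set.inter_subset_left hA hB
          have hbT : b ∉ T := fun h => hb.2 ⟨hb.1, h⟩
          rcases hG a b hab with h | h | h
          · exact ⟨a, ha.2, b, ⟨hfg i hb.1, hbT⟩, h.1⟩
          · by_cases hxT : x ∈ T
            · exact ⟨x, hxT, b, ⟨hfg i hb.1, hbT⟩, h.2 ▸ hxw⟩
            · exact ⟨a, ha.2, x, ⟨hxg i hu, hxT⟩, h.1 ▸ hxu.symm⟩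
          · by_cases hxT : x ∈ T
            · exact ⟨x, hxT, b, ⟨hfg i hb.1, hbT⟩, h.2 ▸ hxu⟩
            · exact ⟨a, ha.2, x, ⟨hxg i hu, hxT⟩, h.1 ▸ hxw.symm⟩
        · have huT : u ∈ T := by
            by_contra huT
            exact hB ⟨u, hu, fun h => huT h.2⟩
          obtain ⟨s, hs, hsT⟩ := hc
          have hsx : s = x := by
            rcases hgf i s hs with h | h
            · exfalso
              exact hB ⟨s, h, fun h' => hsT h'.2⟩
            · exact h.1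
          rw [hsx] at hs hsT
          exact ⟨u, huT, x, ⟨hs, hsT⟩, hxu.symm⟩
      · obtain ⟨t, ht⟩ := hTn
        have htx : t = x := by
          rcases hgf i t (hT ht) with h | h
          · exfalso
            exact hA ⟨t, h, ht⟩
          · exact h.1
        rw [htx] at ht
        exact ⟨x, ht, u, ⟨hfg i hu, fun h => hA ⟨u, hu, h⟩⟩, hxu⟩
    · have : g i = f i := by simp only [g, if_neg hu]
      rw [this]
      refine (h1 i).mono_graph ?_
      intro a ha b hb hab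
      rcases hG a b hab with h | h | h
      · exact h.1
      · exact (hu (h.1 ▸ ha)).elim
      · exact (hu (h.2 ▸ hb)).elim
  · intro i j hij
    rw [Set.disjoint_left]
    intro t hti htj
    rcases hgf i t hti with h | h <;> rcases hgf j t htj with h' | h'
    · exact Set.disjoint_left.1 (h2 i j hij) h h'
    · exact hx i (h'.1 ▸ h)
    · exact hx j (h.1 ▸ h')
    · exact Set.disjoint_left.1 (h2 i j hij) h.2 h'.2
  · intro i j hij
    obtain ⟨a, ha, b, hb, hab⟩ := h3 i j hij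
    rcases hG a b hab with h | h | h
    · exact ⟨a, hfg i ha, b, hfg j hb, h.1⟩
    · exact ⟨x, hxg i (h.1 ▸ ha), b, hfg j hb, h.2 ▸ hxw⟩
    · exact ⟨a, hfg i ha, x, hxg j (h.2 ▸ hb), h.1 ▸ hxw.symm⟩

end Pool.Agent.H19SP
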