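import Mathlib
import Pool.Agent.H19SP.K4
import Pool.Agent.H19SP.Analytic

set_option autoImplicit false
set_option linter.unusedSectionVars false

open Polynomial

namespace Pool.Agent.H19SP

variable {V : Type*} [Fintype V] [DecidableEq V]

/-- The Potts weight of a map `σ`, with edge weights `y`. -/
noncomputable def wt (y : Sym2 V → ℂ) {q : ℕ} (σ : V → Fin q) : ℂ :=
  ∏ e : Sym2 V, if (e.map σ).IsDiag then y e else 1

theorem wt_mul (y y' : Sym2 V → ℂ) {q : ℕ} (σ : V → Fin q) :
    wt (y * y') σ = wt y σ * wt y' σ := by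
  unfold wt
  rw [← Finset.prod_mul_distrib]
  refine Finset.prod_congr rfl fun e _ => ?_
  by_cases h : (e.map σ).IsDiag
  · simp [h]
  · simp [h]

theorem wt_single (a b : V) (t : ℂ) {q : ℕ} (σ : V → Fin q) :
    wt (Pi.mulSingle s(a, b) t) σ = if σ a = σ b then t else 1 := by
  unfold wt
  rw [Finset.prod_eq_single s(a, b)]
  · simp
  · intro e _ he
    simp [Pi.mulSingle_eq_of_ne he]
  · simp

/-- Existence of the polynomial. -/
theorem exists_poly (y : Sym2 V → ℂ) :
    ∃ P : ℂ[X], ∀ q : ℕ, P.eval (q : ℂ) = ∑ σ : V → Fin q, wt y σ := by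
  classical
  refine ⟨∑ A ∈ (Finset.univ : Finset (Sym2 V)).powerset,
    C (∏ e ∈ A, (y e - 1)) * X ^ Nat.card (Quot fun a b : V => s(a, b) ∈ A), fun q => ?_⟩
  have h1 : ∀ σ : V → Fin q, wt y σ =
      ∑ A ∈ (Finset.univ : Finset (Sym2 V)).powerset,
        (∏ e ∈ A, (y e - 1)) * (if ∀ a b, s(a, b) ∈ A → σ a = σ b then 1 else 0) := by
    intro σ
    have h2 : wt y σ = ∏ e : Sym2 V, (1 + if (e.map σ).IsDiag then y e - 1 else 0) := by
      unfold wt
      refine Finset.prod_congr rfl fun e _ => ?_
      by_cases h : (e.map σ).IsDiag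
      · simp [h]
      · simp [h]
    rw [h2, Finset.prod_one_add]
    refine Finset.sum_congr rfl fun A _ => ?_
    by_cases h : ∀ a b, s(a, b) ∈ A → σ a = σ b
    · rw [if_pos h, mul_one]
      refine Finset.prod_congr rfl fun e he => ?_
      induction e using Sym2.ind with
      | _ a b =>
        rw [if_pos]
        simpa using h a b he
    · rw [if_neg h, mul_zero]
      push Not at h
      obtain ⟨a, b, hab, hne⟩ := h
      apply Finset.prod_eq_zero hab
      rw [if_neg]
      simpa using hne
  rw [Finset.sum_congr rfl fun σ _ => h1 σ, Finset.sum_comm, eval_finsetSum]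
  refine Finset.sum_congr rfl fun A _ => ?_
  rw [← Finset.mul_sum, eval_mul, eval_C, eval_pow, eval_X]
  congr 1
  rw [Finset.sum_boole]
  have h3 : (Finset.univ.filter fun σ : V → Fin q => ∀ a b, s(a, b) ∈ A → σ a = σ b).card =
      q ^ Nat.card (Quot fun a b : V => s(a, b) ∈ A) := by
    have e : (Quot (fun a b : V => s(a, b) ∈ A) → Fin q) ≃
        {σ : V → Fin q // ∀ a b, s(a, b) ∈ A → σ a = σ b} :=
      { toFun := fun f => ⟨fun a => f (Quot.mk _ a), fun a b hab =>
          congrArg f (Quot.sound (r := fun a b : V => s(a, b) ∈ A) hab)⟩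
        invFun := fun σ => Quot.lift σ.1 fun a b hab => σ.2 a b hab
        left_inv := fun f => by
          funext x
          induction x using Quot.ind
          rfl
        right_inv := fun σ => by
          apply Subtype.ext
          rfl }
    have h4 := Nat.card_congr e
    rw [Nat.card_fun, Nat.card_eq_fintype_card (α := Fin q), Fintype.card_fin,
      Nat.card_eq_fintype_card (α := {σ : V → Fin q // ∀ a b, s(a, b) ∈ A → σ a = σ b}),
      Fintype.card_subtype] at h4
    exact h4.symm
  rw [h3]
  push_cast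
  rfl

/-- `P` represents the partition function of `y`. -/
def Rep (P : ℂ[X]) (y : Sym2 V → ℂ) : Prop :=
  ∀ q : ℕ, 0 < q → P.eval (q : ℂ) = ∑ σ : V → Fin q, wt y σ

theorem poly_eq_of_nat {P Q : ℂ[X]} (h : ∀ q : ℕ, 0 < q → P.eval (q : ℂ) = Q.eval (q : ℂ)) :
    P = Q := by
  apply Polynomial.eq_of_infinite_eval_eq
  have h1 : (Set.range fun n : ℕ => ((n + 1 : ℕ) : ℂ)).Infinite := by
    apply Set.infinite_range_of_injective
    intro a b hab
    have : (a + 1 : ℕ) = b + 1 := Nat.cast_injective hab
    omega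
  refine h1.mono ?_
  rintro _ ⟨n, rfl⟩
  exact h (n + 1) (Nat.succ_pos n)

/-- Summing over the value at one vertex. -/
theorem sum_update {q : ℕ} (x : V) (F : (V → Fin q) → ℂ) :
    (q : ℂ) * ∑ σ, F σ = ∑ σ : V → Fin q, ∑ c : Fin q, F (Function.update σ x c) := by
  have h1 : ∑ σ : V → Fin q, ∑ c : Fin q, F (Function.update σ x c) =
      ∑ p : (V → Fin q) × Fin q, F (Function.update p.1 x p.2) := by
    rw [Fintype.sum_prod_type]
  have h2 : (q : ℂ) * ∑ σ, F σ = ∑ p : (V → Fin q) × Fin q, F p.1 := by
    rw [Fintype.sum_prod_type]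
    simp [Finset.mul_sum]
  rw [h1, h2]
  let e : ((V → Fin q) × Fin q) ≃ ((V → Fin q) × Fin q) :=
    { toFun := fun p => (Function.update p.1 x p.2, p.1 x)
      invFun := fun p => (Function.update p.1 x p.2, p.1 x)
      left_inv := fun p => by simp
      right_inv := fun p => by simp }
  exact (Fintype.sum_equiv e (fun p => F (Function.update p.1 x p.2)) (fun p => F p.1)
    (fun p => rfl)).symm

theorem local_sum {q : ℕ} (a b : Fin q) (y₁ y₂ : ℂ) :
    ∑ c : Fin q, (if c = a then y₁ else 1) * (if c = b then y₂ else 1) =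
      ((q : ℂ) - 2 + y₁ + y₂) + (if a = b then (1 - y₁) * (1 - y₂) else 0) := by
  have h1 : ∀ c : Fin q, (if c = a then y₁ else 1) * (if c = b then y₂ else 1) =
      1 + (if c = a then y₁ - 1 else 0) + (if c = b then y₂ - 1 else 0) +
        (if c = a then (if a = b then (1 - y₁) * (1 - y₂) else 0) else 0) := by
    intro c
    by_cases hca : c = a
    · by_cases hab : a = b
      · subst hab
        simp only [hca, if_true]
        ring
      · have : ¬ c = b := fun h => hab (hca.symm.trans h)
        simp only [hca, hab, if_true, if_false]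
        ring
    · by_cases hcb : c = b
      · simp only [hcb, if_true]
        have hba : ¬ b = a := fun h => hca (hcb.trans h)
        simp only [hba, if_false]
        ring
      · simp only [hca, hcb, if_false]
        ring
  rw [Finset.sum_congr rfl fun c _ => h1 c]
  simp only [Finset.sum_add_distrib, Finset.sum_ite_eq', Finset.mem_univ, if_true,
    Finset.sum_const, Finset.card_univ, Fintype.card_fin, nsmul_eq_mul, mul_one]
  ring

theorem local_sum_one {q : ℕ} (a : Fin q) (y₁ : ℂ) :
    ∑ c : Fin q, (if c = a then y₁ else 1) = (q : ℂ) - 1 + y₁ := by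
  have h1 : ∀ c : Fin q, (if c = a then y₁ else 1) = 1 + (if c = a then y₁ - 1 else 0) := by
    intro c
    by_cases hca : c = a
    · simp [hca]
    · simp [hca]
  rw [Finset.sum_congr rfl fun c _ => h1 c]
  simp only [Finset.sum_add_distrib, Finset.sum_ite_eq', Finset.mem_univ, if_true,
    Finset.sum_const, Finset.card_univ, Fintype.card_fin, nsmul_eq_mul, mul_one]
  ring

/-- Erase the weights at `x`. -/
noncomputable def erase (x : V) (y : Sym2 V → ℂ) : Sym2 V → ℂ := fun e => if x ∈ e then 1 else y e

theorem wt_erase_update (x : V) (y : Sym2 V → ℂ) {q : ℕ} (σ : V → Fin q) (c : Fin q) :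
    wt (erase x y) (Function.update σ x c) = wt (erase x y) σ := by
  unfold wt
  refine Finset.prod_congr rfl fun e _ => ?_
  induction e using Sym2.ind with
  | _ a b =>
    by_cases hx : x ∈ s(a, b)
    · simp [erase, hx]
    · rw [Sym2.mem_iff, not_or] at hx
      have h1 : Function.update σ x c a = σ a := Function.update_of_ne (Ne.symm hx.1) _ _
      have h2 : Function.update σ x c b = σ b := Function.update_of_ne (Ne.symm hx.2) _ _
      have h3 : Sym2.map (Function.update σ x c) s(a, b) = Sym2.map σ s(a, b) := by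
        rw [Sym2.map_mk, Sym2.map_mk, h1, h2]
      rw [h3]

/-- Splitting off the weights at `x` (two neighbours). -/
theorem split_two {x u w : V} (hxu : x ≠ u) (hxw : x ≠ w) (huw : u ≠ w) {y : Sym2 V → ℂ}
    (hy : ∀ a, a ≠ u → a ≠ w → y s(x, a) = 1) :
    y = erase x y * Pi.mulSingle s(x, u) (y s(x, u)) * Pi.mulSingle s(x, w) (y s(x, w)) := by
  funext e
  simp only [Pi.mul_apply, erase]
  have hne : s(x, u) ≠ s(x, w) := by
    intro h
    rw [Sym2.eq_iff] at h
    rcases h with h | h
    · exact huw h.2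
    · exact hxw h.1
  by_cases hx : x ∈ e
  · obtain ⟨a, rfl⟩ := hx
    rw [if_pos (Sym2.mem_mk_left x a), one_mul]
    by_cases hau : a = u
    · subst hau
      rw [Pi.mulSingle_eq_same, Pi.mulSingle_eq_of_ne hne, mul_one]
    · have h1 : s(x, a) ≠ s(x, u) := by
        intro h
        rw [Sym2.eq_iff] at h
        rcases h with h | h
        · exact hau h.2
        · exact hxu h.1
      rw [Pi.mulSingle_eq_of_ne h1, one_mul]
      by_cases haw : a = w
      · subst haw
        rw [Pi.mulSingle_eq_same]
      · have h2 : s(x, a) ≠ s(x, w) := by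
          intro h
          rw [Sym2.eq_iff] at h
          rcases h with h | h
          · exact haw h.2
          · exact hxw h.1
        rw [Pi.mulSingle_eq_of_ne h2]
        exact hy a hau haw
  · rw [if_neg hx]
    have h1 : e ≠ s(x, u) := fun h => hx (h ▸ Sym2.mem_mk_left x u)
    have h2 : e ≠ s(x, w) := fun h => hx (h ▸ Sym2.mem_mk_left x w)
    rw [Pi.mulSingle_eq_of_ne h1, Pi.mulSingle_eq_of_ne h2, mul_one, mul_one]

/-- Splitting off the weights at `x` (one neighbour). -/
theorem split_one {x u : V} (hxu : x ≠ u) {y : Sym2 V → ℂ}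
    (hy : ∀ a, a ≠ u → y s(x, a) = 1) :
    y = erase x y * Pi.mulSingle s(x, u) (y s(x, u)) := by
  funext e
  simp only [Pi.mul_apply, erase]
  by_cases hx : x ∈ e
  · obtain ⟨a, rfl⟩ := hx
    rw [if_pos (Sym2.mem_mk_left x a), one_mul]
    by_cases hau : a = u
    · subst hau
      rw [Pi.mulSingle_eq_same]
    · have h1 : s(x, a) ≠ s(x, u) := by
        intro h
        rw [Sym2.eq_iff] at h
        rcases h with h | h
        · exact hau h.2
        · exact hxu h.1
      rw [Pi.mulSingle_eq_of_ne h1]
      exact hy a hau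
  · rw [if_neg hx]
    have h1 : e ≠ s(x, u) := fun h => hx (h ▸ Sym2.mem_mk_left x u)
    rw [Pi.mulSingle_eq_of_ne h1, mul_one]

/-- Series reduction at a complex number. -/
theorem series_rep {x u w : V} (hxu : x ≠ u) (hxw : x ≠ w) (huw : u ≠ w) {y : Sym2 V → ℂ}
    (hy : ∀ a, a ≠ u → a ≠ w → y s(x, a) = 1) {P : ℂ[X]} (hP : Rep P y) {z : ℂ}
    (hD : z - 2 + y s(x, u) + y s(x, w) ≠ 0) :
    ∃ P' : ℂ[X], Rep P' (erase x y * Pi.mulSingle s(u, w)
        (1 + (1 - y s(x, u)) * (1 - y s(x, w)) / (z - 2 + y s(x, u) + y s(x, w)))) ∧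
      z * P.eval z = (z - 2 + y s(x, u) + y s(x, w)) * P'.eval z := by
  set y₁ := y s(x, u) with hy₁
  set y₂ := y s(x, w) with hy₂
  set t := (1 - y₁) * (1 - y₂) / (z - 2 + y₁ + y₂) with ht
  obtain ⟨P0, hP0⟩ := exists_poly (erase x y)
  obtain ⟨P2, hP2⟩ := exists_poly (erase x y * Pi.mulSingle s(u, w) 2)
  have hdiff : ∀ q : ℕ, (P2 - P0).eval (q : ℂ) =
      ∑ σ : V → Fin q, wt (erase x y) σ * (if σ u = σ w then 1 else 0) := by
    intro q
    rw [eval_sub, hP0, hP2, ← Finset.sum_sub_distrib]
    refine Finset.sum_congr rfl fun σ _ => ?_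
    rw [wt_mul, wt_single]
    by_cases h : σ u = σ w
    · simp only [h, if_true]
      ring
    · simp only [h, if_false]
      ring
  refine ⟨P0 + C t * (P2 - P0), ?_, ?_⟩
  · intro q _
    rw [eval_add, eval_mul, eval_C, hdiff, hP0, Finset.mul_sum, ← Finset.sum_add_distrib]
    refine Finset.sum_congr rfl fun σ _ => ?_
    rw [wt_mul, wt_single]
    by_cases h : σ u = σ w
    · simp only [h, if_true]
      ring
    · simp only [h, if_false]
      ring
  · have hid : X * P = (X - C 2 + C y₁ + C y₂) * P0 + C ((1 - y₁) * (1 - y₂)) * (P2 - P0) := by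
      apply poly_eq_of_nat
      intro q hq
      rw [eval_mul, eval_X, hP q hq, sum_update x, eval_add, eval_mul, eval_mul, hdiff, hP0]
      simp only [eval_add, eval_sub, eval_X, eval_C]
      rw [Finset.mul_sum, Finset.mul_sum, ← Finset.sum_add_distrib]
      refine Finset.sum_congr rfl fun σ _ => ?_
      have h1 : ∀ c : Fin q, wt y (Function.update σ x c) =
          wt (erase x y) σ * ((if c = σ u then y₁ else 1) * (if c = σ w then y₂ else 1)) := by
        intro c
        conv_lhs => rw [split_two hxu hxw huw hy]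
        rw [wt_mul, wt_mul, wt_erase_update, wt_single, wt_single]
        rw [Function.update_self, Function.update_of_ne hxu.symm, Function.update_of_ne hxw.symm]
        ring
      rw [Finset.sum_congr rfl fun c _ => h1 c, ← Finset.mul_sum, local_sum]
      by_cases h : σ u = σ w
      · simp only [h, if_true]
        ring
      · simp only [h, if_false]
        ring
    have h2 := congrArg (fun Q : ℂ[X] => Q.eval z) hid
    simp only [eval_mul, eval_X, eval_add, eval_sub, eval_C] at h2
    rw [h2]
    simp only [eval_add, eval_mul, eval_C, eval_sub]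
    rw [ht]
    field_simp

/-- Removal of a pendant vertex. -/
theorem pendant_rep {x u : V} (hxu : x ≠ u) {y : Sym2 V → ℂ}
    (hy : ∀ a, a ≠ u → y s(x, a) = 1) {P : ℂ[X]} (hP : Rep P y) (z : ℂ) :
    ∃ P' : ℂ[X], Rep P' (erase x y) ∧ z * P.eval z = (z - 1 + y s(x, u)) * P'.eval z := by
  set y₁ := y s(x, u) with hy₁
  obtain ⟨P0, hP0⟩ := exists_poly (erase x y)
  refine ⟨P0, fun q _ => hP0 q, ?_⟩
  have hid : X * P = (X - C 1 + C y₁) * P0 := by
    apply poly_eq_of_nat
    intro q hq
    rw [eval_mul, eval_X, hP q hq, sum_update x, eval_mul, hP0]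
    simp only [eval_add, eval_sub, eval_X, eval_C]
    rw [Finset.mul_sum]
    refine Finset.sum_congr rfl fun σ _ => ?_
    have h1 : ∀ c : Fin q, wt y (Function.update σ x c) =
        wt (erase x y) σ * (if c = σ u then y₁ else 1) := by
      intro c
      conv_lhs => rw [split_one hxu hy]
      rw [wt_mul, wt_erase_update, wt_single]
      rw [Function.update_self, Function.update_of_ne hxu.symm]
    rw [Finset.sum_congr rfl fun c _ => h1 c, ← Finset.mul_sum, local_sum_one]
    ring
  have h2 := congrArg (fun Q : ℂ[X] => Q.eval z) hid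
  simp only [eval_mul, eval_X, eval_add, eval_sub, eval_C] at h2
  exact h2

end Pool.Agent.H19SP
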