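import Mathlib
import Pool.Agent.H19SP.Potts

set_option autoImplicit false
set_option linter.unusedSectionVars false

open Polynomial

namespace Pool.Agent.H19SP

variable {V : Type*} [Fintype V] [DecidableEq V]

/-- A weighted graph with costs. -/
structure Good (p : Params) (G : SimpleGraph V) (y : Sym2 V → ℂ) (c : V → V → ℝ) : Prop where
  noedge : ∀ a b, ¬ G.Adj a b → y s(a, b) = 1 ∧ c a b = 0
  one_le : ∀ a b, G.Adj a b → 1 ≤ c a b
  sum_le : ∀ a, ∑ b, c a b ≤ p.K
  allowed : ∀ a b, G.Adj a b → p.Allowed (c a b) (c b a) (y s(a, b))

namespace Good

variable {p : Params} {G : SimpleGraph V} {y : Sym2 V → ℂ} {c : V → V → ℝ}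

theorem nonneg (h : Good p G y c) (a b : V) : 0 ≤ c a b := by
  by_cases hab : G.Adj a b
  · linarith [h.one_le a b hab]
  · exact (h.noedge a b hab).2.ge

theorem le_K (h : Good p G y c) (a b : V) : c a b ≤ p.K :=
  (Finset.single_le_sum (fun b _ => h.nonneg a b) (Finset.mem_univ b)).trans (h.sum_le a)

theorem pair_le_K (h : Good p G y c) (a : V) {b d : V} (hbd : b ≠ d) : c a b + c a d ≤ p.K := by
  have h1 : ∑ e ∈ ({b, d} : Finset V), c a e ≤ ∑ e, c a e :=
    Finset.sum_le_sum_of_subset_of_nonneg (Finset.subset_univ _) fun e _ _ => h.nonneg a e
  rw [Finset.sum_pair hbd] at h1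
  exact h1.trans (h.sum_le a)

theorem allowed' (h : Good p G y c) (a b : V) : p.Allowed (c a b) (c b a) (y s(a, b)) := by
  by_cases hab : G.Adj a b
  · exact h.allowed a b hab
  · rw [(h.noedge a b hab).1, (h.noedge a b hab).2,
      (h.noedge b a fun h' => hab h'.symm).2]
    exact p.allowed_one

end Good

theorem main_aux (p : Params) {z : ℂ} (hz : p.r0 ≤ ‖z‖) :
    ∀ (m : ℕ) (G : SimpleGraph V) (y : Sym2 V → ℂ) (c : V → V → ℝ),
      {v | ∃ w, G.Adj v w}.ncard = m → ¬ HasK4 G → Good p G y c →
      ∀ P : ℂ[X], Rep P y → P.eval z ≠ 0 := by
  have hz0 : z ≠ 0 := by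
    intro h
    rw [h, norm_zero] at hz
    linarith [p.r0_pos]
  intro m
  induction m using Nat.strong_induction_on with
  | _ m ih =>
  intro G y c hm hG hgood P hP
  by_cases hedge : ∃ x0 y0, G.Adj x0 y0
  · obtain ⟨x0, y0, hxy0⟩ := hedge
    obtain ⟨x, u, w, hxu, hxw⟩ := exists_low_degree hG hxy0
    by_cases hdeg : G.Adj x w ∧ u ≠ w
    · -- degree two
      obtain ⟨hxw', huw⟩ := hdeg
      have hne_u : x ≠ u := hxu.ne
      have hne_w : x ≠ w := hxw'.ne
      have hy : ∀ a, a ≠ u → a ≠ w → y s(x, a) = 1 := by
        intro a hau haw
        refine (hgood.noedge x a fun h => ?_).1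
        rcases hxw a h with h' | h'
        · exact hau h'
        · exact haw h'
      obtain ⟨hD, hR⟩ := Params.series (p := p) hz (a := c u x) (b := c w x) (c := c x u)
        (d := c x w) (y₁ := y s(x, u)) (y₂ := y s(x, w))
        (hgood.one_le u x hxu.symm) (hgood.one_le w x hxw'.symm) (hgood.le_K u x)
        (hgood.le_K w x) (hgood.nonneg x u) (hgood.nonneg x w) (hgood.pair_le_K x huw)
        (hgood.allowed x u hxu).symm (hgood.allowed x w hxw')
      obtain ⟨P', hP', hPP'⟩ := series_rep hne_u hne_w huw hy hP hD
      set t : ℂ := 1 + (1 - y s(x, u)) * (1 - y s(x, w)) / (z - 2 + y s(x, u) + y s(x, w)) with ht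
      -- the new graph
      let G' : SimpleGraph V :=
        { Adj := fun a b => (G.Adj a b ∧ a ≠ x ∧ b ≠ x) ∨ (a = u ∧ b = w) ∨ (a = w ∧ b = u)
          symm := ⟨by
            rintro a b (h | h | h)
            · exact Or.inl ⟨h.1.symm, h.2.2, h.2.1⟩
            · exact Or.inr (Or.inr ⟨h.2, h.1⟩)
            · exact Or.inr (Or.inl ⟨h.2, h.1⟩)⟩
          loopless := ⟨by
            rintro a (h | h | h)
            · exact h.1.ne rfl
            · exact huw (h.1.symm.trans h.2)
            · exact huw (h.2.symm.trans h.1)⟩ }
      have hG'adj : ∀ a b, G'.Adj a b ↔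
          (G.Adj a b ∧ a ≠ x ∧ b ≠ x) ∨ (a = u ∧ b = w) ∨ (a = w ∧ b = u) := fun a b => Iff.rfl
      let c' : V → V → ℝ := fun a b =>
        if a = x ∨ b = x then 0 else
          c a b + (if a = u ∧ b = w then c u x else 0) + (if a = w ∧ b = u then c w x else 0)
      have hK4' : ¬ HasK4 G' := fun h => hG (h.of_series hxu hxw' fun a b hab => hab)
      have hcard : {v | ∃ w, G'.Adj v w}.ncard < m := by
        rw [← hm]
        apply Set.ncard_lt_ncard _ (Set.toFinite _)
        refine ⟨?_, ?_⟩
        · rintro a ⟨b, hab⟩
          rcases hab with h | h | h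
          · exact ⟨b, h.1⟩
          · exact ⟨x, h.1 ▸ hxu.symm⟩
          · exact ⟨x, h.1 ▸ hxw'.symm⟩
        · intro hsub
          have hx : x ∈ {v | ∃ w, G.Adj v w} := ⟨u, hxu⟩
          obtain ⟨b, hb⟩ := hsub hx
          rcases hb with h | h | h
          · exact h.2.1 rfl
          · exact hne_u h.1
          · exact hne_w h.1
      have hgood' : Good p G' (erase x y * Pi.mulSingle s(u, w) t) c' := by
        refine ⟨?_, ?_, ?_, ?_⟩
        · intro a b hab
          rw [hG'adj] at hab
          push Not at hab
          have hsne : s(a, b) ≠ s(u, w) := by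
            intro h
            rw [Sym2.eq_iff] at h
            rcases h with h | h
            · exact hab.2.1 h.1 h.2
            · exact hab.2.2 h.1 h.2
          constructor
          · rw [Pi.mul_apply, Pi.mulSingle_eq_of_ne hsne, mul_one]
            unfold erase
            by_cases hx : x ∈ s(a, b)
            · rw [if_pos hx]
            · rw [if_neg hx]
              rw [Sym2.mem_iff, not_or] at hx
              apply (hgood.noedge a b _).1
              intro h
              exact Ne.symm hx.2 (hab.1 h (Ne.symm hx.1))
          · show (if a = x ∨ b = x then (0 : ℝ) else _) = 0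
            by_cases hx : a = x ∨ b = x
            · rw [if_pos hx]
            · rw [if_neg hx]
              push Not at hx
              rw [if_neg (fun h => hab.2.1 h.1 h.2), if_neg (fun h => hab.2.2 h.1 h.2)]
              rw [(hgood.noedge a b fun h => hx.2 (hab.1 h hx.1)).2]
              norm_num
        · intro a b hab
          show 1 ≤ (if a = x ∨ b = x then (0 : ℝ) else _)
          rw [hG'adj] at hab
          have n1 := hgood.nonneg a b
          have n2 := hgood.one_le u x hxu.symm
          have n3 := hgood.one_le w x hxw'.symm
          rcases hab with h | h | h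
          · rw [if_neg (not_or.2 ⟨h.2.1, h.2.2⟩)]
            have := hgood.one_le a b h.1
            split_ifs <;> linarith
          · obtain ⟨rfl, rfl⟩ := h
            rw [if_neg (not_or.2 ⟨hne_u.symm, hne_w.symm⟩), if_pos ⟨rfl, rfl⟩]
            split_ifs <;> linarith
          · obtain ⟨rfl, rfl⟩ := h
            rw [if_neg (not_or.2 ⟨hne_w.symm, hne_u.symm⟩)]
            split_ifs with h1 h2 h2
            · linarith
            · linarith
            · linarith
            · exact (h2 ⟨rfl, rfl⟩).elim
        · intro a
          by_cases hax : a = x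
          · have : ∀ b, c' a b = 0 := fun b => if_pos (Or.inl hax)
            rw [Finset.sum_congr rfl fun b _ => this b]
            simp only [Finset.sum_const_zero]
            linarith [p.hK]
          · have h1 : ∀ b, c' a b = c a b + (if b = w then (if a = u then c u x else 0) else 0) +
                (if b = u then (if a = w then c w x else 0) else 0) -
                (if b = x then c a x else 0) := by
              intro b
              show (if a = x ∨ b = x then (0 : ℝ) else _) = _
              by_cases hbx : b = x
              · subst hbx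
                rw [if_pos (Or.inr rfl), if_neg hne_w, if_neg hne_u, if_pos rfl]
                ring
              · rw [if_neg (not_or.2 ⟨hax, hbx⟩), if_neg hbx]
                by_cases hbw : b = w
                · by_cases hau : a = u
                  · simp [hbw, hau, huw, huw.symm]
                  · simp [hbw, hau, huw.symm]
                · by_cases hbu : b = u
                  · by_cases haw : a = w
                    · simp [hbu, haw, huw, huw.symm]
                    · simp [hbu, haw, huw]
                  · simp [hbw, hbu]
            rw [Finset.sum_congr rfl fun b _ => h1 b]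
            simp only [Finset.sum_add_distrib, Finset.sum_sub_distrib, Finset.sum_ite_eq',
              Finset.mem_univ, if_true]
            have h2 := hgood.sum_le a
            by_cases hau : a = u
            · subst hau
              simp only [if_true, if_neg huw]
              linarith
            · by_cases haw : a = w
              · subst haw
                simp only [if_true, if_neg hau]
                linarith
              · simp only [if_neg hau, if_neg haw]
                linarith [hgood.nonneg a x]
        · have main : p.Allowed (c' u w) (c' w u)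
              ((erase x y * Pi.mulSingle s(u, w) t : Sym2 V → ℂ) s(u, w)) := by
            have e1 : c' u w = c u w + c u x := by
              show (if u = x ∨ w = x then (0 : ℝ) else _) = _
              rw [if_neg (not_or.2 ⟨hne_u.symm, hne_w.symm⟩), if_pos ⟨rfl, rfl⟩,
                if_neg (fun h => huw h.1)]
              ring
            have e2 : c' w u = c w u + c w x := by
              show (if w = x ∨ u = x then (0 : ℝ) else _) = _
              rw [if_neg (not_or.2 ⟨hne_w.symm, hne_u.symm⟩), if_neg (fun h => huw h.2),
                if_pos ⟨rfl, rfl⟩]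
              ring
            have e3 : (erase x y * Pi.mulSingle s(u, w) t : Sym2 V → ℂ) s(u, w) = y s(u, w) * t := by
              rw [Pi.mul_apply, Pi.mulSingle_eq_same]
              unfold erase
              rw [if_neg]
              rw [Sym2.mem_iff, not_or]
              exact ⟨hne_u, hne_w⟩
            rw [e1, e2, e3]
            exact (hgood.allowed' u w).mul hR
          intro a b hab
          rw [hG'adj] at hab
          by_cases h1 : a = u ∧ b = w
          · rw [h1.1, h1.2]
            exact main
          by_cases h2 : a = w ∧ b = u
          · rw [h2.1, h2.2, show s(w, u) = s(u, w) from Sym2.eq_swap]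
            exact main.symm
          have h3 : G.Adj a b ∧ a ≠ x ∧ b ≠ x := by
            rcases hab with h | h | h
            · exact h
            · exact (h1 h).elim
            · exact (h2 h).elim
          have e1 : c' a b = c a b := by
            show (if a = x ∨ b = x then (0 : ℝ) else _) = _
            rw [if_neg (not_or.2 ⟨h3.2.1, h3.2.2⟩), if_neg h1, if_neg h2]
            ring
          have e2 : c' b a = c b a := by
            show (if b = x ∨ a = x then (0 : ℝ) else _) = _
            rw [if_neg (not_or.2 ⟨h3.2.2, h3.2.1⟩), if_neg (fun h => h2 ⟨h.2, h.1⟩),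
              if_neg (fun h => h1 ⟨h.2, h.1⟩)]
            ring
          have e3 : (erase x y * Pi.mulSingle s(u, w) t : Sym2 V → ℂ) s(a, b) = y s(a, b) := by
            have hsne : s(a, b) ≠ s(u, w) := by
              intro h
              rw [Sym2.eq_iff] at h
              rcases h with h | h
              · exact h1 h
              · exact h2 h
            rw [Pi.mul_apply, Pi.mulSingle_eq_of_ne hsne, mul_one]
            unfold erase
            rw [if_neg]
            rw [Sym2.mem_iff, not_or]
            exact ⟨h3.2.1.symm, h3.2.2.symm⟩
          rw [e1, e2, e3]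
          exact hgood.allowed a b h3.1
      have hne := ih _ hcard G' _ c' rfl hK4' hgood' P' hP'
      intro h0
      rw [h0, mul_zero] at hPP'
      exact mul_ne_zero hD hne hPP'.symm
    · -- degree one
      have honly : ∀ a, G.Adj x a → a = u := by
        intro a ha
        rcases hxw a ha with h | h
        · exact h
        · by_contra hau
          exact hdeg ⟨h ▸ ha, fun h' => hau (h.trans h'.symm)⟩
      have hne_u : x ≠ u := hxu.ne
      have hy : ∀ a, a ≠ u → y s(x, a) = 1 := by
        intro a hau
        exact (hgood.noedge x a fun h => hau (honly a h)).1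
      have hD : z - 1 + y s(x, u) ≠ 0 :=
        Params.pendant hz (hgood.le_K x u) (hgood.le_K u x) (hgood.allowed x u hxu)
      obtain ⟨P', hP', hPP'⟩ := pendant_rep hne_u hy hP z
      let G' : SimpleGraph V :=
        { Adj := fun a b => G.Adj a b ∧ a ≠ x ∧ b ≠ x
          symm := ⟨fun a b h => ⟨h.1.symm, h.2.2, h.2.1⟩⟩
          loopless := ⟨fun a h => h.1.ne rfl⟩ }
      have hG'adj : ∀ a b, G'.Adj a b ↔ (G.Adj a b ∧ a ≠ x ∧ b ≠ x) := fun a b => Iff.rfl
      let c' : V → V → ℝ := fun a b => if a = x ∨ b = x then 0 else c a b
      have hK4' : ¬ HasK4 G' := fun h => hG (h.mono fun a b hab => hab.1)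
      have hcard : {v | ∃ w, G'.Adj v w}.ncard < m := by
        rw [← hm]
        apply Set.ncard_lt_ncard _ (Set.toFinite _)
        refine ⟨?_, ?_⟩
        · rintro a ⟨b, hab⟩
          exact ⟨b, hab.1⟩
        · intro hsub
          have hx : x ∈ {v | ∃ w, G.Adj v w} := ⟨u, hxu⟩
          obtain ⟨b, hb⟩ := hsub hx
          exact hb.2.1 rfl
      have hgood' : Good p G' (erase x y) c' := by
        refine ⟨?_, ?_, ?_, ?_⟩
        · intro a b hab
          rw [hG'adj] at hab
          by_cases hx : a = x ∨ b = x
          · refine ⟨?_, if_pos hx⟩
            unfold erase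
            rw [if_pos]
            rw [Sym2.mem_iff]
            rcases hx with h | h
            · exact Or.inl h.symm
            · exact Or.inr h.symm
          · have hx' := hx
            push Not at hx'
            have hnab : ¬ G.Adj a b := fun h => hab ⟨h, hx'⟩
            refine ⟨?_, ?_⟩
            · unfold erase
              rw [if_neg]
              · exact (hgood.noedge a b hnab).1
              · rw [Sym2.mem_iff, not_or]
                exact ⟨hx'.1.symm, hx'.2.symm⟩
            · show (if a = x ∨ b = x then (0 : ℝ) else _) = 0
              rw [if_neg hx]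
              exact (hgood.noedge a b hnab).2
        · intro a b hab
          show 1 ≤ (if a = x ∨ b = x then (0 : ℝ) else _)
          rw [if_neg (not_or.2 hab.2)]
          exact hgood.one_le a b hab.1
        · intro a
          refine le_trans (Finset.sum_le_sum fun b _ => ?_) (hgood.sum_le a)
          show (if a = x ∨ b = x then (0 : ℝ) else _) ≤ _
          split_ifs
          · exact hgood.nonneg a b
          · exact le_rfl
        · intro a b hab
          have e1 : c' a b = c a b := if_neg (not_or.2 hab.2)
          have e2 : c' b a = c b a := if_neg (not_or.2 ⟨hab.2.2, hab.2.1⟩)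
          have e3 : erase x y s(a, b) = y s(a, b) := by
            unfold erase
            rw [if_neg]
            rw [Sym2.mem_iff, not_or]
            exact ⟨hab.2.1.symm, hab.2.2.symm⟩
          rw [e1, e2, e3]
          exact hgood.allowed a b hab.1
      have hne := ih _ hcard G' _ c' rfl hK4' hgood' P' hP'
      intro h0
      rw [h0, mul_zero] at hPP'
      exact mul_ne_zero hD hne hPP'.symm
  · -- no edges
    push Not at hedge
    have hy1 : ∀ e, y e = 1 := by
      intro e
      induction e using Sym2.ind with
      | _ a b => exact (hgood.noedge a b (hedge a b)).1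
    have hPeq : P = X ^ Fintype.card V := by
      apply poly_eq_of_nat
      intro q hq
      rw [hP q hq]
      have h1 : ∀ σ : V → Fin q, wt y σ = 1 := by
        intro σ
        unfold wt
        apply Finset.prod_eq_one
        intro e _
        rw [hy1 e]
        simp
      rw [Finset.sum_congr rfl fun σ _ => h1 σ]
      simp
    rw [hPeq, eval_pow, eval_X]
    exact pow_ne_zero _ hz0

/-- The main theorem: chromatic roots of `K₄`-minor-free graphs of maximum degree at most
`k` have modulus less than `64 k / log k`. -/
theorem chromatic_root_bound (k : ℕ) (hk : 2 ≤ k) (G : SimpleGraph V) (hG : ¬ HasK4 G)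
    (hdeg : ∀ v, (G.neighborSet v).ncard ≤ k) (P : ℂ[X])
    (hP : ∀ q : ℕ, 0 < q → P.eval (q : ℂ) = (Nat.card (G.Coloring (Fin q)) : ℂ))
    (z : ℂ) (hz : P.eval z = 0) : ‖z‖ < 64 * k / Real.log k := by
  classical
  by_contra hcon
  push Not at hcon
  let y : Sym2 V → ℂ := fun e => if e ∈ G.edgeSet then 0 else 1
  let c : V → V → ℝ := fun a b => if G.Adj a b then 1 else 0
  have hgood : Good (mkParams k hk) G y c := by
    refine ⟨?_, ?_, ?_, ?_⟩
    · intro a b hab
      refine ⟨?_, if_neg hab⟩
      show (if s(a, b) ∈ G.edgeSet then (0 : ℂ) else 1) = 1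
      rw [if_neg]
      rwa [SimpleGraph.mem_edgeSet]
    · intro a b hab
      show 1 ≤ (if G.Adj a b then (1 : ℝ) else 0)
      rw [if_pos hab]
    · intro a
      show ∑ b, (if G.Adj a b then (1 : ℝ) else 0) ≤ (k : ℝ)
      rw [Finset.sum_boole]
      have h1 := hdeg a
      have h2 : (G.neighborSet a).ncard = (Finset.univ.filter fun b => G.Adj a b).card := by
        rw [← Set.ncard_coe_finset]
        congr 1
        ext b
        simp
      rw [h2] at h1
      exact_mod_cast h1
    · intro a b hab
      left
      show (if s(a, b) ∈ G.edgeSet then (0 : ℂ) else 1) = 0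
      rw [if_pos]
      rwa [SimpleGraph.mem_edgeSet]
  have hRep : Rep P y := by
    intro q hq
    rw [hP q hq]
    have h1 : ∀ σ : V → Fin q, wt y σ = if (∀ a b, G.Adj a b → σ a ≠ σ b) then 1 else 0 := by
      intro σ
      unfold wt
      by_cases h : ∀ a b, G.Adj a b → σ a ≠ σ b
      · rw [if_pos h]
        apply Finset.prod_eq_one
        intro e _
        induction e using Sym2.ind with
        | _ a b =>
          by_cases hab : σ a = σ b
          · rw [if_pos (by simpa using hab)]
            show (if s(a, b) ∈ G.edgeSet then (0 : ℂ) else 1) = 1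
            rw [if_neg]
            rw [SimpleGraph.mem_edgeSet]
            exact fun h' => h a b h' hab
          · rw [if_neg (by simpa using hab)]
      · rw [if_neg h]
        push Not at h
        obtain ⟨a, b, hab, heq⟩ := h
        apply Finset.prod_eq_zero (Finset.mem_univ s(a, b))
        rw [if_pos (by simpa using heq)]
        show (if s(a, b) ∈ G.edgeSet then (0 : ℂ) else 1) = 0
        rw [if_pos]
        rwa [SimpleGraph.mem_edgeSet]
    rw [Finset.sum_congr rfl fun σ _ => h1 σ, Finset.sum_boole]
    congr 1
    rw [← Fintype.card_subtype, ← Nat.card_eq_fintype_card]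
    apply Nat.card_congr
    exact
      { toFun := fun C => ⟨fun v => C v, fun a b hab => C.valid hab⟩
        invFun := fun σ => SimpleGraph.Coloring.mk σ.1 fun {a b} hab => σ.2 a b hab
        left_inv := fun C => by
          ext v
          rfl
        right_inv := fun σ => rfl }
  exact main_aux (mkParams k hk) (z := z) hcon _ G y c rfl hG hgood P hRep hz

end Pool.Agent.H19SP
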